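import Pool.Agent.J6H49.CN.Table
import Pool.Agent.J6H49.BI.Corr

/-!
# The probability that a language of the level `Σ_{k+1}` is the complement, for one length
-/

set_option autoImplicit false

namespace Pool.Agent.J6H49.CN

open Pool.Agent.NPC Finset H568R2 Pool.Agent.H676 Pool.Agent.H620R2.Gauge Pool.Agent.H591R3.PHG
open Pool.Agent.J6H7.RO MeasureTheory Filter LangTrAux
open Pool.Agent.J6H49.PHC (mix mix_pre mix_off smp_mix quant_congr)
open Pool.Agent.J6H49.BI (LateP out_mixP prob_le_of_ovw2 fair MO_id)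

/-- the rest of the input number `j` -/
noncomputable def zz (k ν : ℕ) (j : Fin (2 ^ ν)) : List Bool :=
  bitsOf ν j.val ++ List.replicate (2 ^ (ν + 1) - (parLen k ν + ν)) false

theorem inp_bits (k ν : ℕ) (j : Fin (2 ^ ν)) :
    inp k (bitsOf ν j.val) = enc (par k ν) (64 * uu ν) (zz k ν j) := by
  unfold inp zz
  rw [length_bitsOf]

/-- the positions of the random bits of the trees for the length `ν` -/
noncomputable def posn (k ν : ℕ) : Idx (Fin (2 ^ ν)) (64 * uu ν :: pw (par k ν)) → List Bool :=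
  fun g => addr (fun j => enc (par k ν) (64 * uu ν) (zz k ν j)) (par k ν) g.1 ++
    List.replicate g.2.val true

theorem enc_zz_len {k ν : ℕ} (h : parLen k ν + ν ≤ 2 ^ (ν + 1)) (j : Fin (2 ^ ν)) :
    (enc (par k ν) (64 * uu ν) (zz k ν j)).length = 2 ^ (ν + 1) := by
  rw [← inp_bits, length_inp]
  · rw [length_bitsOf]
  · rw [length_bitsOf]
    exact h

theorem enc_zz_inj (k ν : ℕ) :
    Function.Injective (fun j => enc (par k ν) (64 * uu ν) (zz k ν j)) := by
  intro j j' h
  have h1 := enc_inj _ _ h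
  unfold zz at h1
  have h2 := (List.append_inj h1 (by rw [length_bitsOf, length_bitsOf])).1
  exact Fin.ext (bitsOf_inj j.isLt j'.isLt h2)

theorem posn_inj {k ν : ℕ} (h : parLen k ν + ν ≤ 2 ^ (ν + 1)) :
    Function.Injective (posn k ν) :=
  leaf_inj _ (enc_zz_inj k ν) (2 ^ (ν + 1)) (enc_zz_len h) (par k ν) (64 * uu ν)

theorem posn_len {k ν : ℕ} (h : parLen k ν + ν ≤ 2 ^ (ν + 1))
    (g : Idx (Fin (2 ^ ν)) (64 * uu ν :: pw (par k ν))) :
    2 ^ (ν + 1) ≤ (posn k ν g).length := by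
  unfold posn
  rw [List.length_append, length_addr _ (2 ^ (ν + 1)) (enc_zz_len h)]
  omega

theorem hard_ovw {k ν : ℕ} (hu : 1 ≤ uu ν) (h : parLen k ν + ν ≤ 2 ^ (ν + 1))
    (ω : Idx (Fin (2 ^ ν)) (64 * uu ν :: pw (par k ν)) → Bool) (A : Oracle) (j : Fin (2 ^ ν)) :
    bitsOf ν j.val ∉ hardE k (ovw (posn k ν) ω A) ↔
      Tr (64 * uu ν :: pw (par k ν)) (val (fun _ => none) ω) j = true := by
  have h1 := mem_lang_iff (ovw (posn k ν) ω A) k (par k ν) (par_spec hu).1
    (64 * uu ν) (zz k ν) j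
  have h2 : leaves (fun j => enc (par k ν) (64 * uu ν) (zz k ν j)) (par k ν) (64 * uu ν)
      (ovw (posn k ν) ω A) = val (fun _ => none) ω := by
    funext g
    show ovw (posn k ν) ω A (posn k ν g) = ω g
    exact ovw_pos (posn_inj h) ω A g
  rw [h2] at h1
  show ¬ (inq k (bitsOf ν j.val) ∈ lang k (ovw (posn k ν) ω A)) ↔ _
  rw [inq_eq (by rw [length_bitsOf]; exact h), inp_bits, h1]
  simp

/-- the language of the level `Σ_{k+1}` given by `M`, with the bound `m` and the inputs `yy x`, is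
the complement of the hard language on the strings of length `ν` -/
def Ev (k : ℕ) (O : Oracle → Oracle) (M : Alg) (m ν : ℕ) (yy : List Bool → List Bool) :
    Set Oracle :=
  {A | ∀ x : List Bool, x.length = ν →
    (Quant m (outV M (O A)) (k + 1) true (yy x) ↔ x ∉ hardE k A)}

theorem meas_ev {O : Oracle → Oracle} (hO : MO O) (k : ℕ) (M : Alg) (m ν : ℕ)
    (yy : List Bool → List Bool) : MeasurableSet (Ev k O M m ν yy) := by
  have : Ev k O M m ν yy = ⋂ x : List Bool, {A | x.length = ν →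
      (Quant m (outV M (O A)) (k + 1) true (yy x) ↔ x ∉ hardE k A)} := by
    ext A
    simp [Ev]
  rw [this]
  refine MeasurableSet.iInter fun x => ?_
  by_cases h1 : x.length = ν
  · simp only [h1, true_imp_iff]
    exact meas_iff (meas_quant hO M m (k + 1) true (yy x)) (meas_lang MO_id k (inq k x)).compl
  · simp only [h1, false_imp_iff]
    exact MeasurableSet.const _

theorem le_sqrt_pow (ν : ℕ) : ((2 : ℝ) ^ ν) = ((2 ^ ν : ℕ) : ℝ) := by push_cast; rfl

open Classical in
/-- **The bound for one length.** -/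
theorem corr {pre : List Bool} {O : Oracle → Oracle} (hO : LateP pre O) (k : ℕ) (M : Alg)
    (P : Polynomial ℕ) : ∀ᶠ ν : ℕ in atTop, ∀ (m ℓ : ℕ) (yy : List Bool → List Bool),
      (∀ x : List Bool, x.length = ν → (yy x).length ≤ ℓ) →
      ℓ + (k + 1) * (2 * m + 1) ≤ P.eval (2 ^ (ν + 1)) →
      prob (fun _ => fair) (Ev k O M m ν yy) ≤ 4096 / Real.sqrt (2 ^ ν) := by
  have htend : Tendsto (fun ν : ℕ => 2 ^ (ν + 1)) atTop atTop :=
    (tendsto_pow_atTop_atTop_of_one_lt (show 1 < 2 by norm_num)).comp (tendsto_add_atTop_nat 1)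
  filter_upwards [htend.eventually (out_mixP hO M P), ev_par k, eventually_ge_atTop 18,
    ev_poly (M.p.comp P + (P + 2) + Polynomial.C k)]
    with ν h1 h2 h3 h4 m ℓ yy hℓ hP
  obtain ⟨hu1, hpar⟩ := h2
  have hpar' : parLen k ν + ν ≤ 2 ^ (ν + 1) := by omega
  simp only [Polynomial.eval_add, Polynomial.eval_comp, Polynomial.eval_C,
    Polynomial.eval_ofNat] at h4
  have hmS := meas_ev hO.meas k M m ν yy
  have key := prob_le_of_ovw2 (q := fair) (posn_inj hpar') hmS hmS (κ := 0)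
    (ε := 4096 / Real.sqrt (2 ^ ν)) fun A => ?_
  · linarith
  rw [zero_mul, zero_add]
  -- the changed oracles agree with `A` below `2 ^ (ν + 1)`
  have hoff : ∀ (ω : Idx (Fin (2 ^ ν)) (64 * uu ν :: pw (par k ν)) → Bool) (x : List Bool),
      x.length < 2 ^ (ν + 1) → ovw (posn k ν) ω A x = A x := by
    intro ω x hx
    exact ovw_off _ _ fun i hi => by
      have := posn_len hpar' i
      rw [hi] at this
      omega
  -- the formulas
  set F : List Bool → (Idx (Fin (2 ^ ν)) (64 * uu ν :: pw (par k ν)) → Bool) → Bool :=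
    lf M (fun v => mix pre O A (ovw (posn k ν) v A)) with hF
  have hacc : ∀ (ω : Idx (Fin (2 ^ ν)) (64 * uu ν :: pw (par k ν)) → Bool) (x : List Bool),
      x.length = ν → (Quant m (outV M (O (ovw (posn k ν) ω A))) (k + 1) true (yy x) ↔
        QF m F (k + 1) true (yy x) ω = true) := by
    intro ω x hx
    rw [← quant_lf M (fun v : Idx (Fin (2 ^ ν)) (64 * uu ν :: pw (par k ν)) → Bool =>
      mix pre O A (ovw (posn k ν) v A)) m ω (k + 1) true (yy x)]
    refine quant_congr (k + 1) true (yy x) fun y' hy' => ?_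
    rw [h1 A (ovw (posn k ν) ω A) (hoff ω) y' (by
      refine hy'.trans (le_trans ?_ hP)
      exact Nat.add_le_add_right (hℓ x hx) _)]
  obtain ⟨_, _, hcore⟩ := par_spec (k := k) (ν := ν) hu1
  have hb := hcore (Fin (2 ^ ν)) (2 ^ (ν - 2)) (2 ^ (ν - 18)) (by
      rw [Fintype.card_fin]
      obtain ⟨w, rfl⟩ : ∃ w, ν = w + 2 := ⟨ν - 2, by omega⟩
      rw [Nat.add_sub_cancel, pow_add]
      omega) Nat.one_le_two_pow m ℓ F
    (fun y hy => by
      have hsm : Smp (fun z : Idx (Fin (2 ^ ν)) (64 * uu ν :: pw (par k ν)) → Bool =>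
        mix pre O A (ovw (posn k ν) z A)) := smp_mix (posn_inj hpar') pre O A (fun b => b)
      refine dtr_lf hsm M y ?_
      have h6 : M.p.eval y.length ≤ M.p.eval (P.eval (2 ^ (ν + 1))) := eval_mono _ (hy.trans hP)
      have h7 : 2 ^ uu ν ≤ 2 ^ (2 * uu ν) := Nat.pow_le_pow_right (by norm_num) (by omega)
      omega)
    (fun j => yy (bitsOf ν j.val)) (fun j => hℓ _ (length_bitsOf _ _))
  rw [Fintype.card_fin] at hb
  have hνu : ν ≤ uu ν := by
    unfold uu
    nlinarith
  have hnum := total_bound (k := k) (u := uu ν) (P := ℓ + (k + 1) * (2 * m + 1)) (ν := ν) h3 hνu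
    (by omega) (by omega)
  refine le_trans ?_ (hb.trans hnum)
  unfold Ma
  refine Ex_mono (ber_nonneg_m (by show (0 : ℝ) ≤ 1 / 2; norm_num)
    (by show (1 / 2 : ℝ) ≤ 1; norm_num)) fun ω => ?_
  by_cases hE : ovw (posn k ν) ω A ∈ Ev k O M m ν yy
  · rw [if_pos hE, if_pos]
    intro j
    have h6 := hE (bitsOf ν j.val) (length_bitsOf _ _)
    rw [hacc ω _ (length_bitsOf _ _), hard_ovw hu1 hpar' ω A j] at h6
    exact Bool.eq_iff_iff.2 h6
  · rw [if_neg hE]
    split_ifs <;> norm_num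

end Pool.Agent.J6H49.CN
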