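import Pool.Agent.J6H49.CN.Corr
import Pool.Agent.J6H49.EE.Main

/-!
# The complement is not in the same level, even with short advice
-/

set_option autoImplicit false

namespace Pool.Agent.J6H49.CN

open Pool.Agent.NPC Pool.Agent.H620R2.Gauge Pool.Agent.H622R2 Pool.Agent.H591R3.PHG
open Pool.Agent.J6H7.RO (MO randomOracle outV prob)
open MeasureTheory Filter
open Pool.Agent.TH678.GC (join)
open Pool.Agent.TH678.RS (bt)
open Pool.Agent.Y626.WX (Cp cod agree_emb loc_emb exists_cp)
open Pool.Agent.J6H49.PHC (far join_agree)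
open Pool.Agent.J6H49.BI (LateP fair)
open Pool.Agent.J6H49.EE (padE LinExp InExpTime slow slow_mono slow_tendsto time_espace)

/-- the length of the padded string -/
def plen (c ν a : ℕ) : ℕ := 2 * (2 * ν + 1 + a) + 1 + 2 ^ (c * (2 * ν + 1 + a + 1))

theorem length_pad {c ν : ℕ} {x w : List Bool} (hx : x.length = ν) :
    (padE c (pairBits x w)).length = plen c ν w.length := by
  unfold padE plen
  rw [Pool.Agent.H620R2.Gauge.length_pairBits, List.length_replicate,
    Pool.Agent.H620R2.Gauge.length_pairBits, hx]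

/-- a polynomial bound -/
noncomputable def plP (c : ℕ) : Polynomial ℕ := 6 * Polynomial.X + Polynomial.X ^ (3 * c)

theorem plen_le {c ν a : ℕ} (h : a ≤ ν) : plen c ν a ≤ (plP c).eval (2 ^ (ν + 1)) := by
  unfold plen plP
  simp only [Polynomial.eval_add, Polynomial.eval_mul, Polynomial.eval_X, Polynomial.eval_pow,
    Polynomial.eval_ofNat]
  have h1 : ν + 1 ≤ 2 ^ (ν + 1) := Nat.lt_two_pow_self.le
  have h2 : 2 ^ (c * (2 * ν + 1 + a + 1)) ≤ (2 ^ (ν + 1)) ^ (3 * c) := by
    rw [← pow_mul]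
    apply Nat.pow_le_pow_right (by norm_num)
    have : 2 * ν + 1 + a + 1 ≤ 3 * (ν + 1) := by omega
    calc c * (2 * ν + 1 + a + 1) ≤ c * (3 * (ν + 1)) := Nat.mul_le_mul_left _ this
      _ = (ν + 1) * (3 * c) := by ring
  omega

/-- some short advice is right for the length `ν` -/
def Gv (k : ℕ) (O : Oracle → Oracle) (M : Alg) (p : Polynomial ℕ) (c ν : ℕ) : Set Oracle :=
  {A | ∃ w : List Bool, 2 * w.length + 4 * Nat.clog 2 (ν + 1) ≤ ν ∧
    A ∈ Ev k O M (p.eval (plen c ν w.length)) ν (fun x => padE c (pairBits x w))}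

theorem gv_bound {pre : List Bool} {O : Oracle → Oracle} (hO : LateP pre O) (k : ℕ) (M : Alg)
    (p : Polynomial ℕ) (c : ℕ) : ∀ᶠ ν : ℕ in atTop,
      prob (fun _ => fair) (Gv k O M p c ν) ≤ 8192 / ((ν : ℝ) + 1) ^ 2 := by
  filter_upwards [corr hO k M (plP c + Polynomial.C (k + 1) * (2 * p.comp (plP c) + 1))] with ν h1
  by_cases hν : 4 * Nat.clog 2 (ν + 1) ≤ ν
  swap
  · have : Gv k O M p c ν = ∅ := by
      ext A
      simp only [Gv, Set.mem_ofPred_eq, Set.mem_empty_iff_false, iff_false, not_exists, not_and]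
      intro w hw
      omega
    rw [this]
    unfold prob
    rw [measureReal_empty]
    positivity
  set a := (ν - 4 * Nat.clog 2 (ν + 1)) / 2 with ha
  have haν : 2 * a + 4 * Nat.clog 2 (ν + 1) ≤ ν := by omega
  have hsub : Gv k O M p c ν ⊆ ⋃ w ∈ W_strs a,
      Ev k O M (p.eval (plen c ν w.length)) ν (fun x => padE c (pairBits x w)) := by
    rintro A ⟨w, hw, hA⟩
    simp only [Set.mem_iUnion]
    exact ⟨w, W_mem_strs (by omega), hA⟩
  have h2 : prob (fun _ => fair) (Gv k O M p c ν) ≤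
      ∑ w ∈ W_strs a, prob (fun _ => fair)
        (Ev k O M (p.eval (plen c ν w.length)) ν (fun x => padE c (pairBits x w))) :=
    (measureReal_mono hsub (measure_ne_top _ _)).trans (measureReal_biUnion_finset_le _ _)
  have h3 : ∀ w ∈ W_strs a, prob (fun _ => fair)
      (Ev k O M (p.eval (plen c ν w.length)) ν (fun x => padE c (pairBits x w))) ≤
      4096 / Real.sqrt (2 ^ ν) := by
    intro w hw
    have hwa : w.length ≤ ν := by
      have := W_length_of_mem hw
      omega
    refine h1 _ (plen c ν w.length) _ (fun x hx => (length_pad hx).le) ?_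
    have h4 := plen_le (c := c) hwa
    have h5 := eval_mono p h4
    rw [Polynomial.eval_add, Polynomial.eval_mul, Polynomial.eval_C, Polynomial.eval_add,
      Polynomial.eval_mul, Polynomial.eval_comp, Polynomial.eval_ofNat, Polynomial.eval_one]
    have h6 : (k + 1) * (2 * p.eval (plen c ν w.length) + 1) ≤
        (k + 1) * (2 * p.eval ((plP c).eval (2 ^ (ν + 1))) + 1) :=
      Nat.mul_le_mul_left _ (by omega)
    omega
  refine h2.trans ((Finset.sum_le_sum h3).trans ?_)
  rw [Finset.sum_const, nsmul_eq_mul]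
  have hR : 0 < Real.sqrt (2 ^ ν) := Real.sqrt_pos.2 (by positivity)
  have h4 : ((W_strs a).card : ℝ) ≤ 2 * 2 ^ a := by
    have := W_card_strs a
    rw [pow_succ, mul_comm] at this
    exact_mod_cast this
  have h5 : 2 ^ a * ((ν : ℝ) + 1) ^ 2 ≤ Real.sqrt (2 ^ ν) := by
    refine Real.le_sqrt_of_sq_le ?_
    have h6 : (ν : ℝ) + 1 ≤ 2 ^ Nat.clog 2 (ν + 1) := by
      have := Nat.le_pow_clog (show 1 < 2 by norm_num) (ν + 1)
      exact_mod_cast this
    calc (2 ^ a * ((ν : ℝ) + 1) ^ 2) ^ 2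
        ≤ (2 ^ a * (2 ^ Nat.clog 2 (ν + 1)) ^ 2) ^ 2 := by gcongr
      _ = 2 ^ (2 * a + 4 * Nat.clog 2 (ν + 1)) := by
          rw [← pow_mul, ← pow_add, ← pow_mul]
          congr 1
          ring
      _ ≤ 2 ^ ν := pow_le_pow_right₀ (by norm_num) haν
  have h7 : (0 : ℝ) < ((ν : ℝ) + 1) ^ 2 := by positivity
  calc ((W_strs a).card : ℝ) * (4096 / Real.sqrt (2 ^ ν))
      ≤ 2 * 2 ^ a * (4096 / Real.sqrt (2 ^ ν)) :=
        mul_le_mul_of_nonneg_right h4 (by positivity)
    _ = 8192 * 2 ^ a / Real.sqrt (2 ^ ν) := by ring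
    _ ≤ 8192 / ((ν : ℝ) + 1) ^ 2 := by
        rw [div_le_div_iff₀ hR h7]
        nlinarith

theorem ae_gv {pre : List Bool} {O : Oracle → Oracle} (hO : LateP pre O) (k : ℕ) (M : Alg)
    (p : Polynomial ℕ) (c : ℕ) : ∀ᵐ A ∂(randomOracle fun _ => fair),
      ∀ᶠ ν : ℕ in atTop, A ∉ Gv k O M p c ν := by
  obtain ⟨n₀, hn₀⟩ := eventually_atTop.1 (gv_bound hO k M p c)
  have h1 : ∀ᵐ A ∂(randomOracle fun _ => fair), ∀ᶠ i : ℕ in atTop, A ∉ Gv k O M p c (i + n₀) := by
    refine ae_eventually_notMem ?_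
    have hsum : Summable (fun i : ℕ => 8192 / (((i + n₀ : ℕ) : ℝ) + 1) ^ 2) := by
      have h2 : Summable (fun N : ℕ => 1 / (N : ℝ) ^ 2) :=
        Real.summable_one_div_nat_pow.2 (by norm_num)
      have h3 := ((summable_nat_add_iff (n₀ + 1)).2 h2).mul_left 8192
      refine h3.congr fun i => ?_
      push_cast
      rw [mul_one_div, add_assoc]
    have h4 : ∀ i, (randomOracle fun _ => fair) (Gv k O M p c (i + n₀)) ≤
        ENNReal.ofReal (8192 / (((i + n₀ : ℕ) : ℝ) + 1) ^ 2) := by
      intro i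
      rw [← ofReal_measureReal (measure_ne_top _ _)]
      exact ENNReal.ofReal_le_ofReal (hn₀ (i + n₀) (by omega))
    exact ne_top_of_le_ne_top hsum.tsum_ofReal_ne_top (ENNReal.tsum_le_tsum h4)
  filter_upwards [h1] with A hA
  obtain ⟨i₀, hi₀⟩ := eventually_atTop.1 hA
  refine eventually_atTop.2 ⟨i₀ + n₀, fun ν hν => ?_⟩
  have := hi₀ (ν - n₀) (by omega)
  rwa [Nat.sub_add_cancel (by omega)] at this

/-- the complement of the language `L` is not in the class `C`, for almost all input lengths `n`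
and all advice strings of length at most `n / 2 - 2 log (n + 1)` -/
theorem ae_main {pre : List Bool} {O : Oracle → Oracle} (hO : LateP pre O) :
    ∀ᵐ A ∂(randomOracle fun _ => fair), ∀ (k : ℕ) (S : Set (List Bool)),
      LinExp (IsSig (O A) (k + 1)) S → ∃ n₀ : ℕ, ∀ n ≥ n₀, ∀ w : List Bool,
        2 * w.length + 4 * Nat.clog 2 (n + 1) ≤ n →
          ∃ x : List Bool, x.length = n ∧ ¬ (pairBits x w ∈ S ↔ x ∉ hardE k A) := by
  have h1 : ∀ᵐ A ∂(randomOracle fun _ => fair), ∀ (k : ℕ) (M : Alg) (p : Polynomial ℕ) (c : ℕ),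
      ∀ᶠ ν : ℕ in atTop, A ∉ Gv k O M p c ν := by
    rw [ae_all_iff]
    intro k
    rw [ae_all_iff]
    intro M
    rw [ae_all_iff]
    intro p
    rw [ae_all_iff]
    intro c
    exact ae_gv hO k M p c
  filter_upwards [h1] with A hA k S hS
  obtain ⟨c, S', ⟨V, p, ⟨M, hM⟩, hL⟩, hx⟩ := hS
  obtain ⟨n₀, hn₀⟩ := eventually_atTop.1 (hA k M p c)
  refine ⟨n₀, fun n hn w hw => ?_⟩
  by_contra hcon
  push Not at hcon
  refine hn₀ n hn ⟨w, hw, fun x hxn => ?_⟩
  have hV : outV M (O A) = V := by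
    funext y
    unfold outV
    rw [hM]
    rfl
  have h2 := hcon x hxn
  rw [hx, hL, length_pad hxn] at h2
  rw [hV]
  exact h2

variable {g : ℕ → SAlg × Polynomial ℕ} {S : ℕ → Polynomial ℕ} {Φ : Oracle → Oracle}

/-- the oracle -/
noncomputable def oracle (Φ : Oracle → Oracle) (E₀ A : Oracle) : Oracle :=
  join (join (join A E₀) table) (cod Φ (join (join A E₀) table))

theorem late_coded {α : ℕ → ℕ} (hα : Monotone α) (hα' : Tendsto α atTop atTop)
    (hc : Cp g S (bt α) Φ) (E₀ : Oracle) : LateP [false, false, false] (oracle Φ E₀) := by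
  refine ⟨by simp, fun A x => rfl, fun q b => ?_, fun c => ?_⟩
  · refine Pool.Agent.H628R3.RO.measurableSet_of_loc
      (K := {u : List Bool | u.length ≤ q.length}) (List.finite_length_le Bool q.length) ?_
    intro A A' hA
    have h1 : oracle Φ E₀ A q = oracle Φ E₀ A' q := by
      refine loc_emb hc (ℓ := q.length) (fun u hu => ?_) q le_rfl
      refine join_agree (L := q.length + 1) (fun v hv => ?_) u (by omega)
      refine join_agree (L := q.length + 1) (fun v hv => hA v (by
        show v.length ≤ q.length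
        omega)) v hv
    show oracle Φ E₀ A q = b ↔ oracle Φ E₀ A' q = b
    rw [h1]
  · filter_upwards [far hα hα' c] with N hN A A' hA q hq hpre
    have h1 := agree_emb hc (L := N) (T := N ^ c) hN (A := join (join A E₀) table)
      (A' := join (join A' E₀) table) (join_agree (join_agree hA)) q hq
    show join (join (join A E₀) table) (cod Φ (join (join A E₀) table)) q =
      join (join (join A' E₀) table) (cod Φ (join (join A' E₀) table)) q
    rw [h1]
    match q with
    | [] => rfl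
    | false :: [] => rfl
    | false :: false :: [] => rfl
    | false :: false :: false :: x => exact absurd rfl (hpre x)
    | false :: false :: true :: x => rfl
    | false :: true :: x => rfl
    | true :: x => rfl

/-- **The main theorem.** -/
theorem main (β : ℕ → ℕ) (hβ : Monotone β) (hβ' : Tendsto β atTop atTop) :
    ∃ (T : Oracle) (E : Oracle → Oracle),
      (∀ B : Oracle, ∀ L, LinExp (IsPSPACE (join B (E B))) L → InExpTime β (join B (E B)) L) ∧
      ∀ E₀ : Oracle, ∀ᵐ A ∂(randomOracle fun _ => fair), ∀ k : ℕ, ∃ L : Set (List Bool),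
          LinExp (IsSig (join (join (join A E₀) T) (E (join (join A E₀) T))) (k + 1)) L ∧
          ∀ S : Set (List Bool),
            LinExp (IsSig (join (join (join A E₀) T) (E (join (join A E₀) T))) (k + 1)) S →
              ∃ n₀ : ℕ, ∀ n ≥ n₀, ∀ w : List Bool, 2 * w.length + 4 * Nat.clog 2 (n + 1) ≤ n →
                ∃ x : List Bool, x.length = n ∧ ¬ (pairBits x w ∈ S ↔ x ∉ L) := by
  obtain ⟨g, hg⟩ := CC.exists_enum
  obtain ⟨S, Φ, hc⟩ := exists_cp g (bt (slow β))
  refine ⟨table, cod Φ, fun B L hL => time_espace hg hβ hc B hL, fun E₀ => ?_⟩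
  filter_upwards [ae_main (late_coded (slow_mono hβ) (slow_tendsto hβ') hc E₀)] with A hA k
  refine ⟨hardE k A, ?_, hA k⟩
  exact hardE_sig (pre := [false, false, false]) (pre' := [false, true]) (fun q => rfl)
    (fun q => rfl) k

end Pool.Agent.J6H49.CN
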