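import Pool.Agent.J6H49.CN.Sperner

/-!
# The last level in two steps: the hidden pattern and the number of the undetermined roots
-/

set_option autoImplicit false

namespace Pool.Agent.J6H49.CN

open Finset H568R2 Pool.Agent.H591R3.PHG

variable {c : ℕ}

theorem nu_nonneg {t : ℝ} (ht : 0 < t) (ht1 : t < 1) (P : Fin c → Bool) : 0 ≤ nu t P :=
  a1_nu_nonneg ht ht1 P

open Classical in
theorem sum_off_hit {t : ℝ} {σ : Fin c → Option Bool} {Q : Fin c → Bool} (hQ : Zer σ Q)
    {i : Fin c} (hi : σ i = none) :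
    ∑ P : Fin c → Bool, (if off σ P = Q ∧ P i = true then nu t P else 0) = t * nuOff t σ Q := by
  rw [← Finset.sum_filter]
  have h1 : (univ.filter (fun P : Fin c → Bool => off σ P = Q ∧ P i = true)) =
      Fintype.piFinset (fun j => if j = i then ({true} : Finset Bool) else
        if σ j = none then (univ : Finset Bool) else {Q j}) := by
    ext P
    simp only [mem_filter, mem_univ, true_and, Fintype.mem_piFinset, funext_iff, off]
    constructor
    · rintro ⟨h2, h3⟩ j
      by_cases hj : j = i
      · rw [if_pos hj, mem_singleton, hj]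
        exact h3
      · rw [if_neg hj]
        by_cases hσ : σ j = none
        · rw [if_pos hσ]
          exact mem_univ _
        · rw [if_neg hσ, mem_singleton]
          have := h2 j
          rwa [if_neg hσ] at this
    · intro h
      refine ⟨fun j => ?_, ?_⟩
      · by_cases hσ : σ j = none
        · rw [if_pos hσ]
          exact (hQ j hσ).symm
        · rw [if_neg hσ]
          have hj : j ≠ i := fun hj => hσ (hj ▸ hi)
          have := h j
          rwa [if_neg hj, if_neg hσ, mem_singleton] at this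
      · have := h i
        rwa [if_pos rfl, mem_singleton] at this
  rw [h1]
  unfold nu
  rw [← Finset.prod_univ_sum (fun j => if j = i then ({true} : Finset Bool) else
        if σ j = none then (univ : Finset Bool) else {Q j}) (fun _ b => ber t b)]
  unfold nuOff
  have h2 : ∀ j, ∑ b ∈ (if j = i then ({true} : Finset Bool) else
        if σ j = none then (univ : Finset Bool) else {Q j}), ber t b =
      (if j = i then t else 1) * (if σ j = none then 1 else ber t (Q j)) := by
    intro j
    by_cases hj : j = i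
    · rw [if_pos hj, if_pos hj, sum_singleton, hj, if_pos hi, mul_one]
      simp [ber]
    · rw [if_neg hj, if_neg hj, one_mul]
      by_cases hσ : σ j = none
      · rw [if_pos hσ, if_pos hσ, ber_sum]
      · rw [if_neg hσ, if_neg hσ, sum_singleton]
  rw [Finset.prod_congr rfl fun j _ => h2 j, Finset.prod_mul_distrib]
  congr 1
  rw [Finset.prod_ite_eq' univ i (fun _ => t), if_pos (mem_univ i)]

open Classical in
/-- the hidden pattern of a zeroed node is true at a given child with small probability -/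
theorem block_hit {smin : ℕ} {t t' ξ : ℝ} (ht : 0 < t) (ht1 : t < 1) (ht' : 0 < t')
    (hs : 1 ≤ smin) (hξ1 : ξ ≤ 1) (hξ : (1 - ξ) ≤ 1 - (1 - t) ^ smin)
    (σ : Fin c → Option Bool) (i : Fin c) (Q : Fin c → Bool) :
    ∑ a ∈ univ.filter (fun a : St c × Bool => xx σ a.1 a.2 = Q),
      (if a.1.1 = none ∧ a.2 = true ∧ σ i = none ∧ a.1.2 i = true then
        ker t t' ξ smin σ a.1 * ber t' a.2 else 0) ≤ t * nu t Q := by
  have hRHS : 0 ≤ t * nu t Q := mul_nonneg ht.le (nu_nonneg ht ht1 Q)
  rw [Finset.sum_filter, sum_state]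
  simp only [xx_some, xx_none_false, xx_none_true, reduceCtorEq, false_and, and_false,
    if_false, ite_self, zero_add, add_zero, true_and]
  have hb1 : ber t' true = t' := by simp [ber]
  rw [hb1]
  by_cases hi : σ i = none
  swap
  · refine le_trans (le_of_eq ?_) hRHS
    refine Finset.sum_eq_zero fun P _ => ?_
    split_ifs with h1 h2
    · exact absurd h2.1 hi
    · rfl
    · rfl
  by_cases hA : Act smin σ
  swap
  · refine le_trans (le_of_eq ?_) hRHS
    refine Finset.sum_eq_zero fun P _ => ?_
    have k3 : ker t t' ξ smin σ (none, P) = 0 := by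
      unfold ker
      rw [if_neg hA, if_neg (fun h => (Option.some_ne_none _ h.symm))]
    rw [k3, zero_mul, ite_self, ite_self]
  have hp1 := pz_lt_one ht ht1 hs hA
  by_cases hQ : Zer σ Q
  · have h1 : ∀ P : Fin c → Bool, (if off σ P = Q then
        (if σ i = none ∧ P i = true then ker t t' ξ smin σ (none, P) * t' else 0) else 0) =
        ((1 - ξ) * pz t σ / (1 - pz t σ)) *
          (if off σ P = Q ∧ P i = true then nu t P else 0) := by
      intro P
      by_cases hP : off σ P = Q
      · by_cases hPi : P i = true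
        · rw [if_pos hP, if_pos ⟨hi, hPi⟩, if_pos ⟨hP, hPi⟩]
          have hZ : ¬ Zer σ P := fun h => by
            have := h i hi
            rw [hPi] at this
            exact Bool.noConfusion this
          have : ker t t' ξ smin σ (none, P) =
              (1 - ξ) * pz t σ / t' * nu t P / (1 - pz t σ) := by
            unfold ker; simp only [if_pos hA, if_neg hZ]
          rw [this]
          have h0 : 1 - pz t σ ≠ 0 := by linarith
          field_simp
        · rw [if_pos hP, if_neg (fun h => hPi h.2), if_neg (fun h => hPi h.2), mul_zero]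
      · rw [if_neg hP, if_neg (fun h => hP h.1), mul_zero]
    rw [Finset.sum_congr rfl fun P _ => h1 P, ← Finset.mul_sum, sum_off_hit hQ hi, nu_of_zer hQ]
    have hn : 0 ≤ nuOff t σ Q := by
      unfold nuOff
      refine Finset.prod_nonneg fun j _ => ?_
      split_ifs
      · exact zero_le_one
      · unfold ber
        split_ifs <;> linarith
    have hpz : pz t σ ≤ (1 - t) ^ smin :=
      pow_le_pow_of_le_one (by linarith) (by linarith) hA.2
    have hpz0 : 0 ≤ pz t σ := pow_nonneg (by linarith) _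
    have h2 : (1 - ξ) / (1 - pz t σ) ≤ 1 := by
      rw [div_le_one (by linarith)]
      linarith
    calc (1 - ξ) * pz t σ / (1 - pz t σ) * (t * nuOff t σ Q)
        = ((1 - ξ) / (1 - pz t σ)) * (t * (pz t σ * nuOff t σ Q)) := by ring
      _ ≤ 1 * (t * (pz t σ * nuOff t σ Q)) :=
          mul_le_mul_of_nonneg_right h2 (by positivity)
      _ = _ := one_mul _
  · refine le_trans (le_of_eq ?_) hRHS
    refine Finset.sum_eq_zero fun P _ => ?_
    rw [if_neg]
    intro hP
    apply hQ
    intro j hj
    rw [← hP]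
    unfold off
    rw [if_pos hj]

variable {X : Type} [Fintype X] [DecidableEq X]

open Classical in
/-- a hidden bit, together with a function of the visible bits -/
theorem hit_le {smin : ℕ} {t t' ξ : ℝ} (ht : 0 < t) (ht1 : t < 1) (ht' : 0 < t')
    (hs : 1 ≤ smin) (hξ1 : ξ ≤ 1) (hξ : (1 - ξ) ≤ 1 - (1 - t) ^ smin)
    (s : X × Fin c → Option Bool) (x' : X) (i : Fin c) (Ψ : (X × Fin c → Bool) → ℝ)
    (hΨ : ∀ z, 0 ≤ Ψ z) :
    ∑ ρ : X → St c, wt (G := X) t t' ξ smin s ρ * Ex (ber t') (fun z : X → Bool =>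
      if (ρ x').1 = none ∧ z x' = true ∧ s (x', i) = none ∧ (ρ x').2 i = true then
        Ψ (XX (G := X) s ρ z) else 0) ≤ t * Ex (ber t) Ψ := by
  -- the weights
  set w : X → St c × Bool → ℝ := fun g a => ker t t' ξ smin (fun i => s (g, i)) a.1 * ber t' a.2
    with hw
  set w' : X → St c × Bool → ℝ := fun g a => if g = x' then
    (if a.1.1 = none ∧ a.2 = true ∧ s (x', i) = none ∧ a.1.2 i = true then w g a else 0)
    else w g a with hw'
  set v : X → (Fin c → Bool) → ℝ := fun g Q =>
    ∑ a ∈ univ.filter (fun a : St c × Bool => xx (fun i => s (g, i)) a.1 a.2 = Q), w' g a with hv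
  have h1 := sum_push (G := X) (A := St c × Bool) (B := Fin c → Bool)
    (fun g a => xx (fun i => s (g, i)) a.1 a.2) w' v (fun g b => rfl)
    (fun Y => Ψ (fun gi => Y gi.1 gi.2))
  have hprod : ∀ ω : X → St c × Bool, (∏ g, w' g (ω g)) =
      (if (ω x').1.1 = none ∧ (ω x').2 = true ∧ s (x', i) = none ∧ (ω x').1.2 i = true then
        ∏ g, w g (ω g) else 0) := by
    intro ω
    split_ifs with h
    · refine Finset.prod_congr rfl fun g _ => ?_
      simp only [hw']
      split_ifs with hg h2
      · rfl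
      · subst hg
        exact absurd h h2
      · rfl
    · refine Finset.prod_eq_zero (Finset.mem_univ x') ?_
      simp only [hw', if_true]
      rw [if_neg h]
  have hL : ∑ ρ : X → St c, wt (G := X) t t' ξ smin s ρ * Ex (ber t') (fun z : X → Bool =>
      if (ρ x').1 = none ∧ z x' = true ∧ s (x', i) = none ∧ (ρ x').2 i = true then
        Ψ (XX (G := X) s ρ z) else 0) =
      ∑ ω : X → St c × Bool, (∏ g, w' g (ω g)) *
        Ψ (fun gi => xx (fun i => s (gi.1, i)) (ω gi.1).1 (ω gi.1).2 gi.2) := by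
    rw [← (Equiv.arrowProdEquivProdArrow X (fun _ => St c) (fun _ => Bool)).symm.sum_comp]
    rw [Fintype.sum_prod_type]
    refine Finset.sum_congr rfl fun ρ _ => ?_
    unfold Ex
    rw [Finset.mul_sum]
    refine Finset.sum_congr rfl fun z _ => ?_
    rw [hprod]
    simp only [Equiv.arrowProdEquivProdArrow, Equiv.coe_fn_symm_mk]
    by_cases h : (ρ x').1 = none ∧ z x' = true ∧ s (x', i) = none ∧ (ρ x').2 i = true
    · rw [if_pos h, if_pos h]
      simp only [hw]
      rw [Finset.prod_mul_distrib, mul_assoc]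
      rfl
    · rw [if_neg h, if_neg h]
      ring
  rw [hL, h1]
  have hR : t * Ex (ber t) Ψ = ∑ Y : X → Fin c → Bool, (t * ∏ g, nu t (Y g)) *
      Ψ (fun gi => Y gi.1 gi.2) := by
    rw [Ex_curry, Finset.mul_sum]
    refine Finset.sum_congr rfl fun Y _ => ?_
    rw [mul_assoc]
    rfl
  rw [hR]
  refine Finset.sum_le_sum fun Y _ => mul_le_mul_of_nonneg_right ?_ (hΨ _)
  have hvx : v x' (Y x') ≤ t * nu t (Y x') := by
    have h2 := block_hit (t' := t') ht ht1 ht' hs hξ1 hξ (fun i => s (x', i)) i (Y x')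
    refine le_trans (le_of_eq ?_) h2
    simp only [hv, hw', if_true, hw]
  have hvg : ∀ g, g ≠ x' → v g (Y g) = nu t (Y g) := by
    intro g hg
    rw [block (t' := t') (ξ := ξ) ht ht1 ht' hs (fun i => s (g, i)) (Y g)]
    simp only [hv, hw', if_neg hg, hw]
  rw [← Finset.mul_prod_erase univ (fun g => v g (Y g)) (Finset.mem_univ x'),
    ← Finset.mul_prod_erase univ (fun g => nu t (Y g)) (Finset.mem_univ x'), ← mul_assoc]
  have h3 : ∏ g ∈ univ.erase x', v g (Y g) = ∏ g ∈ univ.erase x', nu t (Y g) :=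
    Finset.prod_congr rfl fun g hg => hvg g (Finset.ne_of_mem_erase hg)
  rw [h3]
  exact mul_le_mul_of_nonneg_right hvx (Finset.prod_nonneg fun g _ => nu_nonneg ht ht1 _)

open Classical in
/-- few undetermined roots are rare -/
theorem few_cand {smin m₀ g : ℕ} {t t' ξ q : ℝ} (ht : 0 < t) (ht1 : t < 1) (ht' : 0 < t')
    (hξ0 : 0 ≤ ξ) (hξ1 : ξ ≤ 1) (hs : 1 ≤ smin)
    (hn : (1 - ξ) * (1 - t) ^ smin / t' + ξ * (1 - t) ^ smin ≤ 1) (hq0 : 0 ≤ q) (hq1 : q ≤ 1)
    (s : X × Fin c → Option Bool) (S : Finset X) (hS : g ≤ S.card)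
    (hact : ∀ x ∈ S, Act smin (fun i => s (x, i)) ∧
      2 * q ≤ (1 - ξ) * pz t (fun i => s (x, i)) / t') :
    ∑ ρ : X → St c, wt (G := X) t t' ξ smin s ρ *
      (if (univ.filter fun x => (ρ x).1 = none).card < m₀ then (1 : ℝ) else 0) ≤
      2 ^ m₀ * (1 - q) ^ g := by
  have hnn : ∀ ρ : X → St c, 0 ≤ wt (G := X) t t' ξ smin s ρ := fun ρ =>
    wt_nonneg ht ht1 ht' hξ0 hξ1 hs hn s ρ
  have h1 : ∀ ρ : X → St c,
      (if (univ.filter fun x => (ρ x).1 = none).card < m₀ then (1 : ℝ) else 0) ≤
        2 ^ m₀ * ∏ x, (if (ρ x).1 = none then (1 / 2 : ℝ) else 1) := by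
    intro ρ
    have h2 : ∏ x, (if (ρ x).1 = none then (1 / 2 : ℝ) else 1) =
        (1 / 2) ^ (univ.filter fun x => (ρ x).1 = none).card := by
      rw [Finset.prod_ite, Finset.prod_const, Finset.prod_const_one, mul_one]
    rw [h2]
    split_ifs with h
    · have h3 : (1 / 2 : ℝ) ^ m₀ ≤ (1 / 2) ^ (univ.filter fun x => (ρ x).1 = none).card :=
        pow_le_pow_of_le_one (by norm_num) (by norm_num) h.le
      calc (1 : ℝ) = 2 ^ m₀ * (1 / 2) ^ m₀ := by rw [← mul_pow]; norm_num
        _ ≤ _ := mul_le_mul_of_nonneg_left h3 (by positivity)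
    · positivity
  refine (Finset.sum_le_sum fun ρ _ => mul_le_mul_of_nonneg_left (h1 ρ) (hnn ρ)).trans ?_
  have h4 : ∑ ρ : X → St c, wt (G := X) t t' ξ smin s ρ *
      (2 ^ m₀ * ∏ x, (if (ρ x).1 = none then (1 / 2 : ℝ) else 1)) =
      2 ^ m₀ * ∏ x, ∑ a : St c, ker t t' ξ smin (fun i => s (x, i)) a *
        (if a.1 = none then (1 / 2 : ℝ) else 1) := by
    rw [Finset.prod_univ_sum, Fintype.piFinset_univ, Finset.mul_sum]
    refine Finset.sum_congr rfl fun ρ _ => ?_
    rw [Finset.prod_mul_distrib]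
    unfold wt
    ring
  rw [h4]
  refine mul_le_mul_of_nonneg_left ?_ (by positivity)
  have h5 : ∀ x, ∑ a : St c, ker t t' ξ smin (fun i => s (x, i)) a *
        (if a.1 = none then (1 / 2 : ℝ) else 1) =
      1 - 1 / 2 * LawAux.K t t' ξ smin (fun i => s (x, i)) none := by
    intro x
    have h6 := LawAux.K_sum (t' := t') (ξ := ξ) ht ht1 hs (fun i => s (x, i))
    rw [LawAux.sum_option_bool] at h6
    have h7 : ∑ a : St c, ker t t' ξ smin (fun i => s (x, i)) a *
        (if a.1 = none then (1 / 2 : ℝ) else 1) =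
        1 / 2 * LawAux.K t t' ξ smin (fun i => s (x, i)) none +
          (LawAux.K t t' ξ smin (fun i => s (x, i)) (some true) +
            LawAux.K t t' ξ smin (fun i => s (x, i)) (some false)) := by
      rw [Fintype.sum_prod_type, LawAux.sum_option_bool]
      simp only [if_true, reduceCtorEq, if_false, mul_one]
      rw [← Finset.sum_mul, mul_comm]
      rfl
    rw [h7]
    linarith
  rw [Finset.prod_congr rfl fun x _ => h5 x]
  have hK0 : ∀ x, 0 ≤ LawAux.K t t' ξ smin (fun i => s (x, i)) none := fun x =>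
    Finset.sum_nonneg fun P _ => ker_nonneg ht ht1 ht' hξ0 hξ1 hs hn _ _
  have hK1 : ∀ x, LawAux.K t t' ξ smin (fun i => s (x, i)) none ≤ 1 := by
    intro x
    have h6 := LawAux.K_sum (t' := t') (ξ := ξ) ht ht1 hs (fun i => s (x, i))
    rw [LawAux.sum_option_bool] at h6
    have h7 : 0 ≤ LawAux.K t t' ξ smin (fun i => s (x, i)) (some true) :=
      Finset.sum_nonneg fun P _ => ker_nonneg ht ht1 ht' hξ0 hξ1 hs hn _ _
    have h8 : 0 ≤ LawAux.K t t' ξ smin (fun i => s (x, i)) (some false) :=
      Finset.sum_nonneg fun P _ => ker_nonneg ht ht1 ht' hξ0 hξ1 hs hn _ _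
    linarith
  have h9 : ∏ x, (1 - 1 / 2 * LawAux.K t t' ξ smin (fun i => s (x, i)) none) ≤
      ∏ x, (if x ∈ S then 1 - q else 1) := by
    refine Finset.prod_le_prod (fun x _ => ?_) fun x _ => ?_
    · have := hK1 x
      linarith
    · split_ifs with hx
      · obtain ⟨h10, h11⟩ := hact x hx
        rw [LawAux.K_act_none ht ht1 hs h10]
        linarith
      · have := hK0 x
        linarith
  refine h9.trans ?_
  rw [Finset.prod_ite, Finset.prod_const_one, mul_one, Finset.prod_const]
  have h12 : (univ.filter fun x => x ∈ S) = S := by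
    ext x
    simp
  rw [h12]
  exact pow_le_pow_of_le_one (by linarith) (by linarith) hS

end Pool.Agent.J6H49.CN
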