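import Pool.Agent.J6H49.CN.Top

/-!
# All the levels
-/

set_option autoImplicit false

namespace Pool.Agent.J6H49.CN

open Finset H568R2 Pool.Agent.H676 Pool.Agent.H620R2.Gauge Pool.Agent.NPC Pool.Agent.H591R3.PHG

variable {X : Type} [Fintype X] [DecidableEq X]

open Classical in
/-- The probability that all the functions `g j` are equal to the values at the roots. -/
noncomputable def Ma {X : Type} [Fintype X] [DecidableEq X] (t : ℝ) (cs : List ℕ)
    (s : Idx X cs → Option Bool) (g : X → (Idx X cs → Bool) → Bool) : ℝ :=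
  Ex (ber t) (fun z : Idx X cs → Bool => if ∀ j, g j z = Tr cs (val s z) j then (1 : ℝ) else 0)

theorem Ma_le_one {t : ℝ} (h0 : 0 ≤ t) (h1 : t ≤ 1)
    (cs : List ℕ) (s : Idx X cs → Option Bool) (g : X → (Idx X cs → Bool) → Bool) :
    Ma t cs s g ≤ 1 := by
  classical
  unfold Ma
  refine (Ex_mono (G := fun _ => (1 : ℝ)) (ber_nonneg_m h0 h1) fun z => ?_).trans
    (le_of_eq (Ex_const (ber_sum_m t) 1))
  split_ifs <;> norm_num

/-- One level of the process. -/
theorem Ma_stage {c smin : ℕ} {t t' ξ : ℝ} (ht : 0 < t)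
    (ht1 : t < 1) (ht' : 0 < t') (hs : 1 ≤ smin) (cs : List ℕ) (s : Idx X (c :: cs) → Option Bool)
    (g : X → (Idx X (c :: cs) → Bool) → Bool) :
    Ma t (c :: cs) s g = ∑ ρ : Idx X cs → St c, wt (G := Idx X cs) t t' ξ smin s ρ *
      Ma t' cs (fun h => (ρ h).1) (fun j z => g j (XX (G := Idx X cs) s ρ z)) := by
  classical
  unfold Ma
  have h1 := stage (G := Idx X cs) (ξ := ξ) ht ht1 ht' hs s (fun z : Idx X cs × Fin c → Bool =>
    if ∀ j, g j z = Tr (c :: cs) (val (I := Idx X cs × Fin c) s z) j then (1 : ℝ) else 0)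
  refine Eq.trans ?_ (h1.trans ?_)
  · rfl
  · refine Finset.sum_congr rfl fun ρ _ => ?_
    by_cases hρ : wt (G := Idx X cs) t t' ξ smin s ρ = 0
    · rw [hρ, zero_mul, zero_mul]
    · have h2 : ∀ z : Idx X cs → Bool,
          Tr (c :: cs) (val (I := Idx X cs × Fin c) s (XX s ρ z)) =
            Tr (X := X) cs (val (fun h => (ρ h).1) z) := by
        intro z
        show Tr cs (fun g => decide (∀ i : Fin c,
          val (I := Idx X cs × Fin c) s (XX s ρ z) (g, i) = false)) = _
        congr 1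
        funext g'
        exact val_stage (G := Idx X cs) s ρ hρ z g'
      simp only [h2]

theorem QF_dep {I : Type} {m : ℕ} {F : List Bool → (I → Bool) → Bool} {z z' : I → Bool}
    (h : ∀ y, F y z = F y z') : ∀ (k : ℕ) (b : Bool) (y : List Bool),
      QF m F k b y z = QF m F k b y z' := by
  classical
  intro k
  induction k with
  | zero => intro b y; cases b <;> exact h y
  | succ k ih =>
    intro b y
    cases b with
    | true =>
      show decide (∃ w : List Bool, w.length ≤ m ∧ QF m F k false (pairBits w y) z = true) =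
        decide (∃ w : List Bool, w.length ≤ m ∧ QF m F k false (pairBits w y) z' = true)
      simp only [ih]
    | false =>
      show decide (∀ w : List Bool, w.length ≤ m → QF m F k true (pairBits w y) z = true) =
        decide (∀ w : List Bool, w.length ≤ m → QF m F k true (pairBits w y) z' = true)
      simp only [ih]

/-- the error of the last level -/
noncomputable def err (M r m₀ g : ℕ) (t : ℝ) : ℝ :=
  2 ^ m₀ * (1 - (1 / 256) ^ 2) ^ g + 1 / Real.sqrt m₀ + M * r * t

theorem err_nonneg {M r m₀ g : ℕ} {t : ℝ} (ht : 0 ≤ t) : 0 ≤ err M r m₀ g t := by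
  unfold err
  have : (0 : ℝ) ≤ 1 - (1 / 256) ^ 2 := by norm_num
  positivity

theorem ind {n u D g m₀ : ℕ} (hn : 5 ≤ n) (hu : 8 * u ≤ n) (h0 : 1 ≤ m₀) :
    ∀ (k : ℕ) (cs : List ℕ), cs.length = k + 1 → ∀ (s : Idx X cs → Option Bool) (m ℓ : ℕ)
      (F : List Bool → (Idx X cs → Bool) → Bool),
      (∀ y z z', (∀ h, s h = none → z h = z' h) → F y z = F y z') →
      (∀ y : List Bool, y.length ≤ ℓ + (k + 1) * (2 * m + 1) → DTr (2 ^ (2 * u)) (F y)) →
      ∀ (y : X → List Bool), (∀ j, (y j).length ≤ ℓ) →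
      Ma (1 / 2 ^ (4 * n)) cs s (fun j => QF m F (k + 1) true (y j)) ≤
        k * (2 ^ (ℓ + (k + 1) * (2 * m + 1) + 2) * (1 / 2) ^ (2 ^ (2 * u) + 1)) +
        err (Fintype.card X) (2 ^ (2 * u)) m₀ g (1 / 2 ^ (4 * n)) +
        Wt (1 / 2 ^ (4 * n)) (1 / 2 ^ (2 * n)) (8 * n * 2 ^ (4 * n)) (1 / 256) D g cs s := by
  classical
  set t : ℝ := 1 / 2 ^ (4 * n) with ht
  set ξ : ℝ := 1 / 2 ^ (2 * n) with hξ
  set smin : ℕ := 8 * n * 2 ^ (4 * n) with hsmin
  set r : ℕ := 2 ^ (2 * u) with hr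
  have ht0 : 0 < t := by positivity
  have ht2 : t ≤ 1 / 2 := by
    rw [ht]
    apply one_div_le_one_div_of_le (by norm_num)
    calc (2 : ℝ) = 2 ^ 1 := by norm_num
      _ ≤ 2 ^ (4 * n) := pow_le_pow_right₀ (by norm_num) (by omega)
  have ht1 : t < 1 := by linarith
  have hξ0 : 0 < ξ := by positivity
  have hξ1 : ξ ≤ 1 := by
    rw [hξ, div_le_one (by positivity)]
    exact one_le_pow₀ (by norm_num)
  have hs1 : 1 ≤ smin := by
    rw [hsmin]
    have : 0 < 8 * n * 2 ^ (4 * n) := by positivity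
    omega
  have hr1 : 1 ≤ r := Nat.one_le_two_pow
  obtain ⟨hl1, hl2, hl3⟩ := lam_bound hn hu
  have hlam4 : (1 : ℝ) / 2 ^ (6 * n) ≤ 1 / 4 := by
    apply one_div_le_one_div_of_le (by norm_num)
    calc (4 : ℝ) = 2 ^ 2 := by norm_num
      _ ≤ 2 ^ (6 * n) := pow_le_pow_right₀ (by norm_num) (by omega)
  set Er : ℝ := err (Fintype.card X) r m₀ g t with hEr
  have hE0 : (0 : ℝ) ≤ Er := err_nonneg ht0.le
  -- the condition for the nonnegativity of the weights
  have hcond : (1 - ξ) * (1 - t) ^ smin / t + ξ * (1 - t) ^ smin ≤ 1 := by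
    have h1 : (1 - t) ^ smin / t ≤ 1 / 4 := hl1.trans hlam4
    have h2 : (1 - t) ^ smin ≤ 1 / 4 := by
      have h3 : (1 - t) ^ smin ≤ 1 / 4 * t := (div_le_iff₀ ht0).1 h1
      nlinarith
    have h0 : 0 ≤ (1 - t) ^ smin := pow_nonneg (by linarith) _
    have h5 : 0 ≤ (1 - t) ^ smin / t := by positivity
    have h3 : (1 - ξ) * (1 - t) ^ smin / t ≤ (1 - t) ^ smin / t := by
      rw [mul_div_assoc]
      nlinarith
    have h4 : ξ * (1 - t) ^ smin ≤ (1 - t) ^ smin := by nlinarith
    linarith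
  intro k
  induction k with
  | zero =>
    intro cs hcs s m ℓ F hdep hF y hy
    match cs, hcs with
    | [c], _ =>
      rw [Wt_one]
      have h3 : Ma t [c] s (fun j => QF m F (0 + 1) true (y j)) ≤ 1 := Ma_le_one ht0.le ht1.le _ _ _
      split_ifs with hg
      · push_cast
        linarith
      · push Not at hg
        have h4 := top (X := X) (c := c) (r := r) (m₀ := m₀) (g := g) (cc := 1 / 256) ht0 ht1
          (by norm_num) (by norm_num) s (φ := fun j => QF m F 1 true (y j))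
          (fun j => cert_QF1 F (y j) true fun w hw => hF _ (by
            rw [Pool.Agent.H620R2.Gauge.length_pairBits]
            have := hy j
            omega))
          (fun j z z' h => QF_dep (fun y' => hdep y' z z' h) 1 true (y j))
          (univ.filter (fun j => Good t (1 / 256) D (fun i : Fin c => s (j, i)))) hg (by
            intro j hj
            obtain ⟨h5, _, h6, h7⟩ := (mem_filter.1 hj).2
            refine ⟨h5, h6, le_trans ?_ h7⟩
            exact pow_le_pow_of_le_one (by linarith) (by linarith) (Nat.sub_le _ _)) h0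
        have h5 : Ma t [c] s (fun j => QF m F (0 + 1) true (y j)) ≤ Er := by
          refine le_trans (le_of_eq ?_) h4
          unfold Ma
          refine congrArg (Ex (ber t)) (funext fun z => ?_)
          exact if_congr Iff.rfl rfl rfl
        push_cast
        linarith
  | succ k ih =>
    intro cs hcs s m ℓ F hdep hF y hy
    match cs, hcs with
    | c :: cs, hcs =>
      have hlen : cs.length = k + 1 := by simpa using hcs
      have hne : cs ≠ [] := by
        intro h; rw [h] at hlen; simp at hlen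
      rw [Wt_two _ _ _ _ _ _ _ _ hne]
      rw [Ma_stage (t' := t) (ξ := ξ) (smin := smin) ht0 ht1 ht0 hs1 cs s]
      have hℓ : ℓ + (k + 1 + 1) * (2 * m + 1) = ℓ + (k + 1) * (2 * m + 1) + (2 * m + 1) := by ring
      have hsw := stage_switch (G := Idx X cs) (c := c) (smin := smin) (r := r) (t := t) (t' := t)
        (ξ := ξ) (lam := 1 / 2 ^ (6 * n)) ht0 ht2 ht0 ht1.le hξ0 hξ1 hs1 hl1 hlam4 hr1 hl3 s m
        (ℓ + (k + 1) * (2 * m + 1)) F (fun y' hy' => hF y' (by rw [hℓ]; exact hy'))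
      set bad : (Idx X cs → St c) → Prop := fun ρ => ¬ ∀ y : List Bool,
        y.length ≤ ℓ + (k + 1) * (2 * m + 1) → ∀ b,
        DTr r (fun z : Idx X cs → Bool => QF m F 1 b y (XX s ρ z)) with hbad
      have hnn : ∀ ρ : Idx X cs → St c, 0 ≤ wt (G := Idx X cs) t t ξ smin s ρ := fun ρ =>
        wt_nonneg ht0 ht1 ht0 hξ0.le hξ1 hs1 hcond s ρ
      set E₁ : ℝ := k * (2 ^ (ℓ + (k + 1) * (2 * m + 1) + 2) * (1 / 2) ^ (r + 1)) with hE₁
      have hE₁0 : 0 ≤ E₁ := by positivity
      have hterm : ∀ ρ : Idx X cs → St c, wt (G := Idx X cs) t t ξ smin s ρ *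
          Ma t cs (fun h => (ρ h).1)
            (fun j z => QF m F (k + 1 + 1) true (y j) (XX (G := Idx X cs) s ρ z))
          ≤ wt (G := Idx X cs) t t ξ smin s ρ * (if bad ρ then (1 : ℝ) else 0) +
            wt (G := Idx X cs) t t ξ smin s ρ * (E₁ + Er) +
            wt (G := Idx X cs) t t ξ smin s ρ * Wt t ξ smin (1 / 256) D g cs (fun h => (ρ h).1) := by
        intro ρ
        rw [← mul_add, ← mul_add]
        apply mul_le_mul_of_nonneg_left _ (hnn ρ)
        by_cases hb : bad ρ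
        · rw [if_pos hb]
          have h3 := Ma_le_one (X := X) ht0.le ht1.le cs (fun h => (ρ h).1)
            (fun j z => QF m F (k + 1 + 1) true (y j) (XX (G := Idx X cs) s ρ z))
          have h4 : 0 ≤ Wt t ξ smin (1 / 256) D g cs (fun h : Idx X cs => (ρ h).1) :=
            Wt_nonneg ht0 ht1 hξ0.le hξ1 hs1 hcond cs _
          linarith
        · rw [if_neg hb, zero_add]
          have hgood : ∀ y : List Bool, y.length ≤ ℓ + (k + 1) * (2 * m + 1) → ∀ b,
            DTr r (fun z : Idx X cs → Bool => QF m F 1 b y (XX s ρ z)) := not_not.1 hb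
          have h5 := ih cs hlen (fun h => (ρ h).1) m ℓ
            (fun y' z => QF m F 1 (bot true (k + 1)) y' (XX (G := Idx X cs) s ρ z))
            (fun y' z z' h => by rw [XX_congr (s := s) (ρ := ρ) h])
            (fun y' hy' => hgood y' hy' _) y hy
          refine le_trans (le_of_eq ?_) h5
          congr 1
          funext j z
          rw [QF_peel, QF_comp m (fun y' => QF m F 1 (bot true (k + 1)) y')
            (XX (G := Idx X cs) s ρ)]
      refine (Finset.sum_le_sum fun ρ _ => hterm ρ).trans ?_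
      rw [Finset.sum_add_distrib, Finset.sum_add_distrib, ← Finset.sum_mul,
        wt_sum ht0 ht1 ht0 hs1 s, one_mul]
      have h6 : 2 ^ (ℓ + (k + 1) * (2 * m + 1) + 2) * (16 * (r : ℝ) * (1 / 2 ^ (6 * n))) ^ (r + 1) ≤
          2 ^ (ℓ + (k + 1 + 1) * (2 * m + 1) + 2) * (1 / 2) ^ (r + 1) := by
        apply mul_le_mul
        · apply pow_le_pow_right₀ (by norm_num)
          rw [hℓ]; omega
        · exact pow_le_pow_left₀ (by positivity) hl2 _
        · positivity
        · positivity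
      have h7 : E₁ ≤ k * (2 ^ (ℓ + (k + 1 + 1) * (2 * m + 1) + 2) * (1 / 2) ^ (r + 1)) := by
        rw [hE₁]
        apply mul_le_mul_of_nonneg_left _ (by positivity)
        apply mul_le_mul_of_nonneg_right _ (by positivity)
        apply pow_le_pow_right₀ (by norm_num)
        rw [hℓ]; omega
      have h8 := hsw.trans h6
      have h8' : ∑ ρ : Idx X cs → St c, wt (G := Idx X cs) t t ξ smin s ρ *
          (if bad ρ then (1 : ℝ) else 0) ≤
          2 ^ (ℓ + (k + 1 + 1) * (2 * m + 1) + 2) * (1 / 2) ^ (r + 1) := by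
        refine le_trans (le_of_eq (Finset.sum_congr rfl fun ρ _ => ?_)) h8
        exact congrArg (fun q => wt (G := Idx X cs) t t ξ smin s ρ * q) (if_congr Iff.rfl rfl rfl)
      push_cast
      have h9 : ((k : ℝ) + 1) * (2 ^ (ℓ + (k + 1 + 1) * (2 * m + 1) + 2) * (1 / 2) ^ (r + 1)) =
        k * (2 ^ (ℓ + (k + 1 + 1) * (2 * m + 1) + 2) * (1 / 2) ^ (r + 1)) +
          2 ^ (ℓ + (k + 1 + 1) * (2 * m + 1) + 2) * (1 / 2) ^ (r + 1) := by ring
      rw [h9]
      linarith

/-- all levels, and the level of the random bits -/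
theorem leaf {n u D g m₀ : ℕ} (hn : 5 ≤ n) (hu : 8 * u ≤ n) (h0 : 1 ≤ m₀) (k : ℕ) (cs : List ℕ)
    (hcs : cs.length = k + 1) (m ℓ : ℕ) (F : List Bool → (Idx X (8 * n :: cs) → Bool) → Bool)
    (hF : ∀ y : List Bool, y.length ≤ ℓ + (k + 1) * (2 * m + 1) → DTr (2 ^ (2 * u)) (F y))
    (y : X → List Bool) (hy : ∀ j, (y j).length ≤ ℓ) :
    Ma (1 / 2) (8 * n :: cs) (fun _ => none) (fun j => QF m F (k + 1) true (y j)) ≤
      k * (2 ^ (ℓ + (k + 1) * (2 * m + 1) + 2) * (1 / 2) ^ (2 ^ (2 * u) + 1)) +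
      err (Fintype.card X) (2 ^ (2 * u)) m₀ g (1 / 2 ^ (4 * n)) +
      Ex (nxt (1 / 2) (1 / 2 ^ (4 * n)) 0 (8 * n) (8 * n) law0)
        (Wt (X := X) (1 / 2 ^ (4 * n)) (1 / 2 ^ (2 * n)) (8 * n * 2 ^ (4 * n)) (1 / 256) D g
          cs) := by
  classical
  set t : ℝ := 1 / 2 ^ (4 * n) with ht
  have ht0 : 0 < t := by positivity
  have hpow : (1 - 1 / 2 : ℝ) ^ (8 * n) / t ≤ 1 := by
    rw [ht, div_le_one (by positivity)]
    rw [show (1 - 1 / 2 : ℝ) = 1 / 2 by norm_num, one_div_pow]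
    apply one_div_le_one_div_of_le (by positivity)
    exact pow_le_pow_right₀ (by norm_num) (by omega)
  have hs1 : 1 ≤ 8 * n := by omega
  have hcond : (1 - 0) * (1 - 1 / 2 : ℝ) ^ (8 * n) / t + 0 * (1 - 1 / 2 : ℝ) ^ (8 * n) ≤ 1 := by
    rw [zero_mul, add_zero, sub_zero, one_mul]
    exact hpow
  set s0 : Idx X (8 * n :: cs) → Option Bool := fun _ => none with hs0
  rw [Ma_stage (t := 1 / 2) (t' := t) (ξ := 0) (smin := 8 * n) (by norm_num) (by norm_num) ht0 hs1
    cs s0]
  set E : ℝ := k * (2 ^ (ℓ + (k + 1) * (2 * m + 1) + 2) * (1 / 2) ^ (2 ^ (2 * u) + 1)) +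
      err (Fintype.card X) (2 ^ (2 * u)) m₀ g t with hE
  set W := Wt (X := X) t (1 / 2 ^ (2 * n)) (8 * n * 2 ^ (4 * n)) (1 / 256) D g cs with hW
  have hterm : ∀ ρ : Idx X cs → St (8 * n),
      wt (G := Idx X cs) (1 / 2) t 0 (8 * n) s0 ρ *
        Ma t cs (fun h => (ρ h).1)
          (fun j z => QF m F (k + 1) true (y j) (XX (G := Idx X cs) s0 ρ z)) ≤
      wt (G := Idx X cs) (1 / 2) t 0 (8 * n) s0 ρ * E +
        wt (G := Idx X cs) (1 / 2) t 0 (8 * n) s0 ρ * W (fun h => (ρ h).1) := by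
    intro ρ
    rw [← mul_add]
    apply mul_le_mul_of_nonneg_left _
      (wt_nonneg (by norm_num) (by norm_num) ht0 le_rfl zero_le_one hs1 hcond s0 ρ)
    have h5 := ind hn hu h0 k cs hcs (fun h => (ρ h).1) m ℓ
      (fun y' z => F y' (XX (G := Idx X cs) s0 ρ z))
      (fun y' z z' h => by rw [XX_congr (s := s0) (ρ := ρ) h])
      (fun y' hy' => DTr_XX (G := Idx X cs) s0 ρ (hF y' hy')) y hy (g := g) (D := D)
    refine le_trans (le_of_eq ?_) h5
    congr 1
    funext j z
    rw [QF_comp m F (XX (G := Idx X cs) s0 ρ)]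
  refine (Finset.sum_le_sum fun ρ _ => hterm ρ).trans ?_
  rw [Finset.sum_add_distrib, ← Finset.sum_mul,
    wt_sum (by norm_num) (by norm_num) ht0 hs1 s0, one_mul]
  have h8 := law_stage (G := Idx X cs) (c := 8 * n) (smin := 8 * n) (t := 1 / 2) (t' := t) (ξ := 0)
    law0 W
  rw [Ex_law0] at h8
  rw [← h8]
  exact le_of_eq rfl

end Pool.Agent.J6H49.CN
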