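import Pool.Agent.J6H49.CN.Ind

/-!
# The sizes of the levels and the bound for the probability
-/

set_option autoImplicit false

namespace Pool.Agent.J6H49.CN

open Finset H568R2 Pool.Agent.H676 Pool.Agent.H620R2.Gauge Pool.Agent.NPC Pool.Agent.H591R3.PHG

theorem core (k : ℕ) {u : ℕ} (hu : 1 ≤ u) :
    ∃ as : List ℕ, as.length = k + 1 ∧ (∀ a ∈ as, a ≤ 512 * u) ∧
      ∀ (X : Type) [Fintype X] [DecidableEq X] (g m₀ : ℕ), 4 * g ≤ Fintype.card X → 1 ≤ m₀ →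
      ∀ (m ℓ : ℕ) (F : List Bool → (Idx X (64 * u :: pw as) → Bool) → Bool),
        (∀ y : List Bool, y.length ≤ ℓ + (k + 1) * (2 * m + 1) → DTr (2 ^ (2 * u)) (F y)) →
        ∀ y : X → List Bool, (∀ j, (y j).length ≤ ℓ) →
          Ma (1 / 2) (64 * u :: pw as) (fun _ => none) (fun j => QF m F (k + 1) true (y j)) ≤
            k * (2 ^ (ℓ + (k + 1) * (2 * m + 1) + 2) * (1 / 2) ^ (2 ^ (2 * u) + 1)) +
            err (Fintype.card X) (2 ^ (2 * u)) m₀ g (1 / 2 ^ (32 * u)) +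
            (9 / 10) ^ Fintype.card X := by
  have hn : 5 ≤ 8 * u := by omega
  obtain ⟨as, h1, h2, h3⟩ := exists_sizes hn k _ (inv_start hn)
  refine ⟨as, h1, fun a ha => ?_, ?_⟩
  · have := h2 a ha
    omega
  intro X _ _ g m₀ hg hm₀ m ℓ F hF y hy
  have e64 : 8 * (8 * u) = 64 * u := by ring
  have e32 : 4 * (8 * u) = 32 * u := by ring
  have h4 := h3 X 0 g (by positivity) hg
  have hlen : (pw as).length = k + 1 := by
    rw [pw, List.length_map]; exact h1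
  have h5 := leaf (X := X) (n := 8 * u) (u := u) (D := 0) (g := g) hn le_rfl hm₀ k
    (pw as) hlen m ℓ
  rw [e64] at h5
  have h6 := h5 F hF y hy
  rw [e32] at h6 h4
  refine h6.trans ?_
  rw [← e64]
  linarith

theorem pow16_le : ((1 : ℝ) - (1 / 256) ^ 2) ^ (2 ^ 16) ≤ 3 / 8 := by
  have h1 : (1 : ℝ) - (1 / 256) ^ 2 ≤ Real.exp (-(1 / 2 ^ 16)) := by
    have := Real.add_one_le_exp (-(1 / 2 ^ 16 : ℝ))
    norm_num at this ⊢
    linarith
  calc ((1 : ℝ) - (1 / 256) ^ 2) ^ (2 ^ 16) ≤ (Real.exp (-(1 / 2 ^ 16))) ^ (2 ^ 16) :=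
        pow_le_pow_left₀ (by norm_num) h1 _
    _ = Real.exp (-1) := by
        rw [← Real.exp_nat_mul]
        congr 1
        push_cast
        norm_num
    _ ≤ 3 / 8 := by
        rw [Real.exp_neg]
        have h2 : (2.7 : ℝ) ≤ Real.exp 1 := le_trans (by norm_num) Real.exp_one_gt_d9.le
        calc (Real.exp 1)⁻¹ ≤ (2.7 : ℝ)⁻¹ := inv_anti₀ (by norm_num) h2
          _ ≤ 3 / 8 := by norm_num

theorem frac_pow_le {q : ℝ} (hq : 0 < q) (hq1 : q < 1) (m : ℕ) (hm : 1 ≤ m) :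
    q ^ m ≤ (1 / (1 / q - 1)) / Real.sqrt m := by
  have h0 : 0 < 1 / q - 1 := by
    rw [sub_pos, lt_div_iff₀ hq]
    linarith
  have h1 : 1 + m * (1 / q - 1) ≤ (1 / q) ^ m := by
    have := one_add_mul_le_pow (show (-2 : ℝ) ≤ 1 / q - 1 by linarith) m
    rwa [show 1 + (1 / q - 1) = 1 / q by ring] at this
  have hmr : (1 : ℝ) ≤ m := by exact_mod_cast hm
  have h2 : Real.sqrt m ≤ m := by
    rw [Real.sqrt_le_left (by linarith)]
    nlinarith
  have h3 : Real.sqrt m * (1 / q - 1) ≤ (1 / q) ^ m := by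
    have : Real.sqrt m * (1 / q - 1) ≤ m * (1 / q - 1) :=
      mul_le_mul_of_nonneg_right h2 h0.le
    linarith
  have hs : 0 < Real.sqrt m := Real.sqrt_pos.2 (by linarith)
  rw [div_div, le_div_iff₀ (by positivity)]
  have h4 : q ^ m * (1 / q) ^ m = 1 := by
    rw [← mul_pow]
    have : q * (1 / q) = 1 := by field_simp
    rw [this, one_pow]
  calc q ^ m * ((1 / q - 1) * Real.sqrt m) = q ^ m * (Real.sqrt m * (1 / q - 1)) := by ring
    _ ≤ q ^ m * (1 / q) ^ m := mul_le_mul_of_nonneg_left h3 (by positivity)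
    _ = 1 := h4

/-- the numbers -/
theorem total_bound {k u P ν : ℕ} (hν : 18 ≤ ν) (hu : ν ≤ u) (hk : k ≤ 2 ^ u)
    (hP : P + 2 ≤ 2 ^ u) :
    (k : ℝ) * (2 ^ (P + 2) * (1 / 2) ^ (2 ^ (2 * u) + 1)) +
      err (2 ^ ν) (2 ^ (2 * u)) (2 ^ (ν - 18)) (2 ^ (ν - 2)) (1 / 2 ^ (32 * u)) +
      (9 / 10) ^ (2 ^ ν) ≤ 4096 / Real.sqrt (2 ^ ν) := by
  obtain ⟨w, rfl⟩ : ∃ w, ν = w + 18 := ⟨ν - 18, by omega⟩
  have e1 : w + 18 - 18 = w := by omega
  have e2 : w + 18 - 2 = w + 16 := by omega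
  rw [e1, e2]
  set R := Real.sqrt (2 ^ (w + 18)) with hR
  have hR0 : 0 < R := Real.sqrt_pos.2 (by positivity)
  have hsq : Real.sqrt ((2 ^ w : ℕ) : ℝ) * 512 = R := by
    rw [hR, pow_add, Real.sqrt_mul (by positivity)]
    congr 1
    · push_cast; rfl
    · rw [show (2 : ℝ) ^ 18 = 512 ^ 2 by norm_num, Real.sqrt_sq (by norm_num)]
  have hw0 : 0 < Real.sqrt ((2 ^ w : ℕ) : ℝ) := Real.sqrt_pos.2 (by positivity)
  have hinv : 1 / Real.sqrt ((2 ^ w : ℕ) : ℝ) = 512 / R := by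
    rw [← hsq]
    field_simp
  have hR2 : R ≤ 2 ^ (w + 18) := by
    rw [hR, Real.sqrt_le_left (by positivity)]
    have : (1 : ℝ) ≤ 2 ^ (w + 18) := one_le_pow₀ (by norm_num)
    nlinarith
  have hR3 : (1 : ℝ) / 2 ^ (w + 18) ≤ 1 / R := one_div_le_one_div_of_le hR0 hR2
  -- the switching part
  have p1 : (k : ℝ) * (2 ^ (P + 2) * (1 / 2) ^ (2 ^ (2 * u) + 1)) ≤ 1 / R := by
    refine le_trans ?_ hR3
    have hkr : (k : ℝ) ≤ 2 ^ u := by exact_mod_cast hk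
    have hu3 : 2 * u ≤ 2 ^ u := by
      obtain ⟨v, rfl⟩ : ∃ v, u = v + 1 := ⟨u - 1, by omega⟩
      have : v + 1 ≤ 2 ^ v := Nat.lt_two_pow_self
      rw [pow_succ]
      omega
    have h4 : 4 ≤ 2 ^ u := by
      calc 4 = 2 ^ 2 := by norm_num
        _ ≤ 2 ^ u := Nat.pow_le_pow_right (by norm_num) (by omega)
    have h2u : 2 ^ (2 * u) = 2 ^ u * 2 ^ u := by rw [← pow_add]; congr 1; ring
    have h5 : u + (P + 2) + (w + 18) ≤ 2 ^ (2 * u) + 1 := by
      rw [h2u]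
      nlinarith
    obtain ⟨d, hd⟩ := Nat.exists_eq_add_of_le h5
    rw [hd]
    calc (k : ℝ) * (2 ^ (P + 2) * (1 / 2) ^ (u + (P + 2) + (w + 18) + d))
        ≤ 2 ^ u * (2 ^ (P + 2) * (1 / 2) ^ (u + (P + 2) + (w + 18) + d)) :=
          mul_le_mul_of_nonneg_right hkr (by positivity)
      _ = ((2 : ℝ) * (1 / 2)) ^ u * (2 * (1 / 2)) ^ (P + 2) *
          ((1 / 2) ^ (w + 18 + d)) := by
          rw [mul_pow, mul_pow]
          ring
      _ = (1 / 2) ^ (w + 18 + d) := by norm_num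
      _ ≤ (1 / 2) ^ (w + 18) := pow_le_pow_of_le_one (by norm_num) (by norm_num) (by omega)
      _ = 1 / 2 ^ (w + 18) := by rw [one_div_pow]
  -- the error of the last level
  have p2 : (2 : ℝ) ^ (2 ^ w) * (1 - (1 / 256) ^ 2) ^ (2 ^ (w + 16)) ≤ 3 * (512 / R) := by
    have h1 : (2 : ℝ) ^ (2 ^ w) * (1 - (1 / 256) ^ 2) ^ (2 ^ (w + 16)) ≤ (3 / 4) ^ (2 ^ w) := by
      rw [pow_add 2 w 16, mul_comm (2 ^ w) (2 ^ 16), pow_mul (1 - (1 / 256 : ℝ) ^ 2), ← mul_pow]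
      refine pow_le_pow_left₀ ?_ ?_ _
      · have : (0 : ℝ) ≤ 1 - (1 / 256) ^ 2 := by norm_num
        positivity
      · have := pow16_le
        calc 2 * (1 - (1 / 256 : ℝ) ^ 2) ^ 2 ^ 16 ≤ 2 * (3 / 8) :=
              mul_le_mul_of_nonneg_left this (by norm_num)
          _ = 3 / 4 := by norm_num
    refine h1.trans ?_
    have h2 := frac_pow_le (q := 3 / 4) (by norm_num) (by norm_num) (2 ^ w) Nat.one_le_two_pow
    refine h2.trans (le_of_eq ?_)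
    rw [← hinv]
    norm_num
    ring
  have p3 : (((2 ^ (w + 18) : ℕ)) : ℝ) * ((2 ^ (2 * u) : ℕ) : ℝ) * (1 / 2 ^ (32 * u)) ≤ 1 / R := by
    refine le_trans ?_ hR3
    push_cast
    rw [mul_one_div, div_le_div_iff₀ (by positivity) (by positivity), one_mul, ← pow_add, ← pow_add]
    exact pow_le_pow_right₀ (by norm_num) (by omega)
  have p4 : (9 / 10 : ℝ) ^ (2 ^ (w + 18)) ≤ 9 / R := by
    have h2 := frac_pow_le (q := 9 / 10) (by norm_num) (by norm_num) (2 ^ (w + 18))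
      Nat.one_le_two_pow
    refine h2.trans (le_of_eq ?_)
    rw [hR]
    push_cast
    norm_num
  unfold err
  rw [hinv]
  have e3 : (4096 : ℝ) / R = 1 / R + (3 * (512 / R) + 512 / R + 1 / R) + 9 / R + 2037 / R := by
    field_simp
    norm_num
  rw [e3]
  have h9 : 0 < 2037 / R := by positivity
  linarith

end Pool.Agent.J6H49.CN
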