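import Pool.Agent.H591R3.PHG.Main

/-!
# The probability of an antichain
-/

set_option autoImplicit false

namespace Pool.Agent.J6H49.CN

open Finset H568R2 Pool.Agent.H591R3.PHG

theorem centralBinom_sq (n : ℕ) : n.centralBinom ^ 2 * (3 * n + 1) ≤ 16 ^ n := by
  induction n with
  | zero => simp
  | succ n ih =>
    have h1 := Nat.succ_mul_centralBinom_succ n
    have h2 : (n + 1) ^ 2 * ((n + 1).centralBinom ^ 2 * (3 * (n + 1) + 1)) ≤
        (n + 1) ^ 2 * 16 ^ (n + 1) := by
      calc (n + 1) ^ 2 * ((n + 1).centralBinom ^ 2 * (3 * (n + 1) + 1))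
          = ((n + 1) * (n + 1).centralBinom) ^ 2 * (3 * n + 4) := by ring
        _ = (2 * (2 * n + 1) * n.centralBinom) ^ 2 * (3 * n + 4) := by rw [h1]
        _ = n.centralBinom ^ 2 * (4 * ((2 * n + 1) ^ 2 * (3 * n + 4))) := by ring
        _ ≤ n.centralBinom ^ 2 * (4 * (4 * (n + 1) ^ 2 * (3 * n + 1))) := by
            refine Nat.mul_le_mul_left _ (Nat.mul_le_mul_left _ ?_)
            nlinarith
        _ = 16 * (n + 1) ^ 2 * (n.centralBinom ^ 2 * (3 * n + 1)) := by ring
        _ ≤ 16 * (n + 1) ^ 2 * 16 ^ n := Nat.mul_le_mul_left _ ih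
        _ = (n + 1) ^ 2 * 16 ^ (n + 1) := by ring
    exact Nat.le_of_mul_le_mul_left h2 (by positivity)

theorem choose_half_sq (m : ℕ) : (m.choose (m / 2)) ^ 2 * m ≤ (2 ^ m) ^ 2 := by
  obtain ⟨n, rfl | rfl⟩ := Nat.even_or_odd' m
  · have h1 := centralBinom_sq n
    have e1 : 2 * n / 2 = n := by omega
    rw [e1, ← Nat.centralBinom_eq_two_mul_choose]
    calc n.centralBinom ^ 2 * (2 * n) ≤ n.centralBinom ^ 2 * (3 * n + 1) :=
          Nat.mul_le_mul_left _ (by omega)
      _ ≤ 16 ^ n := h1
      _ = (2 ^ (2 * n)) ^ 2 := by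
          rw [← pow_mul, show 2 * n * 2 = 4 * n by ring, pow_mul]
          norm_num
  · have h1 := centralBinom_sq (n + 1)
    have e1 : (2 * n + 1) / 2 = n := by omega
    rw [e1]
    have h2 : (n + 1).centralBinom = 2 * (2 * n + 1).choose n := by
      rw [Nat.centralBinom_eq_two_mul_choose, show 2 * (n + 1) = 2 * n + 1 + 1 by ring,
        Nat.choose_succ_succ, Nat.choose_symm_half]
      ring
    rw [h2] at h1
    have h3 : 4 * (((2 * n + 1).choose n) ^ 2 * (2 * n + 1)) ≤ 4 * (2 ^ (2 * n + 1)) ^ 2 := by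
      calc 4 * (((2 * n + 1).choose n) ^ 2 * (2 * n + 1))
          ≤ 4 * (((2 * n + 1).choose n) ^ 2 * (3 * (n + 1) + 1)) :=
            Nat.mul_le_mul_left _ (Nat.mul_le_mul_left _ (by omega))
        _ = (2 * (2 * n + 1).choose n) ^ 2 * (3 * (n + 1) + 1) := by ring
        _ ≤ 16 ^ (n + 1) := h1
        _ = 4 * (2 ^ (2 * n + 1)) ^ 2 := by
            rw [← pow_mul, show (16 : ℕ) = 2 ^ 4 by norm_num, show (4 : ℕ) = 2 ^ 2 by norm_num,
              ← pow_mul, ← pow_add]
            congr 1
            ring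
    omega

theorem choose_half_le {m m₀ : ℕ} (h0 : 1 ≤ m₀) (h : m₀ ≤ m) :
    ((m.choose (m / 2) : ℕ) : ℝ) / 2 ^ m ≤ 1 / Real.sqrt m₀ := by
  have h1 : ((m.choose (m / 2) : ℕ) : ℝ) ^ 2 * m₀ ≤ (2 ^ m) ^ 2 := by
    have h2 : (m.choose (m / 2)) ^ 2 * m₀ ≤ (2 ^ m) ^ 2 :=
      (Nat.mul_le_mul_left _ h).trans (choose_half_sq m)
    exact_mod_cast h2
  have hs : (0 : ℝ) < Real.sqrt m₀ := Real.sqrt_pos.2 (by exact_mod_cast h0)
  rw [div_le_div_iff₀ (by positivity) hs, one_mul]
  have h3 : (((m.choose (m / 2) : ℕ) : ℝ) * Real.sqrt m₀) ^ 2 ≤ (2 ^ m) ^ 2 := by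
    rw [mul_pow, Real.sq_sqrt (by positivity)]
    exact h1
  exact le_of_sq_le_sq h3 (by positivity)

open Classical in
/-- the probability of an antichain -/
theorem antichain_le {X : Type} [Fintype X] [DecidableEq X] (cand : X → Prop)
    [DecidablePred cand] {m₀ : ℕ}
    (h0 : 1 ≤ m₀) (hm : m₀ ≤ (univ.filter cand).card) (Q : (X → Bool) → Prop)
    (hdep : ∀ z z' : X → Bool, (∀ x, cand x → z x = z' x) → (Q z ↔ Q z'))
    (hanti : ∀ z z' : X → Bool, Q z → Q z' → (∀ x, cand x → z' x = true → z x = true) →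
      ∀ x, cand x → z x = true → z' x = true) :
    Ex (ber (1 / 2)) (fun z : X → Bool => if Q z then (1 : ℝ) else 0) ≤ 1 / Real.sqrt m₀ := by
  set m := Fintype.card {x // cand x} with hmdef
  have hm' : m₀ ≤ m := by rwa [hmdef, Fintype.card_subtype]
  have hcard : Fintype.card {x // cand x} + Fintype.card {x // ¬ cand x} = Fintype.card X :=
    by
      rw [Fintype.card_subtype_compl]
      exact Nat.add_sub_cancel' (Fintype.card_subtype_le _)
  -- the family
  set ext : ({x // cand x} → Bool) → (X → Bool) := fun a x => if h : cand x then a ⟨x, h⟩ else false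
    with hext
  have hext1 : ∀ a x (h : cand x), ext a x = a ⟨x, h⟩ := fun a x h => by
    simp only [hext, dif_pos h]
  set fam : Finset (Finset {x // cand x}) :=
    (univ.filter fun a : {x // cand x} → Bool => Q (ext a)).image
      (fun a => univ.filter fun x => a x = true) with hfam
  have hinj : Function.Injective (fun a : {x // cand x} → Bool =>
      (univ.filter fun x => a x = true)) := by
    intro a a' h
    funext x
    have h1 : x ∈ (univ.filter fun x => a x = true) ↔ x ∈ (univ.filter fun x => a' x = true) := by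
      rw [show (univ.filter fun x => a x = true) = (univ.filter fun x => a' x = true) from h]
    simp only [mem_filter, mem_univ, true_and] at h1
    cases h2 : a x <;> cases h3 : a' x <;> simp_all
  have hfamc : fam.card = (univ.filter fun a : {x // cand x} → Bool => Q (ext a)).card :=
    Finset.card_image_of_injective _ hinj
  have hac : IsAntichain (· ⊆ ·) (SetLike.coe fam) := by
    intro S hS S' hS' hne hsub
    simp only [hfam, coe_image, coe_filter, mem_univ, true_and, Set.mem_image,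
      Set.mem_ofPred_eq] at hS hS'
    obtain ⟨a, ha, rfl⟩ := hS
    obtain ⟨a', ha', rfl⟩ := hS'
    apply hne
    have h1 := hanti (ext a') (ext a) ha' ha (fun x hx h => by
      rw [hext1 _ _ hx] at h ⊢
      have := hsub (mem_filter.2 ⟨mem_univ ⟨x, hx⟩, h⟩)
      exact (mem_filter.1 this).2)
    refine Finset.Subset.antisymm hsub fun x hx => ?_
    have h2 := h1 x.1 x.2 (by
      rw [hext1 _ _ x.2]
      exact (mem_filter.1 hx).2)
    rw [hext1 _ _ x.2] at h2
    exact mem_filter.2 ⟨mem_univ _, h2⟩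
  have hsp : fam.card ≤ m.choose (m / 2) := hac.sperner
  rw [hfamc] at hsp
  -- the expectation
  have hw : ∀ z : X → Bool, ∏ i, ber (1 / 2) (z i) = (1 / 2 : ℝ) ^ Fintype.card X := by
    intro z
    have : ∀ i, ber (1 / 2) (z i) = (1 / 2 : ℝ) := by
      intro i
      unfold ber
      split_ifs <;> norm_num
    rw [Finset.prod_congr rfl fun i _ => this i, Finset.prod_const, Finset.card_univ]
  unfold Ex
  simp only [hw]
  rw [← Finset.mul_sum]
  have hsum : ∑ z : X → Bool, (if Q z then (1 : ℝ) else 0) =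
      2 ^ Fintype.card {x // ¬ cand x} *
        ((univ.filter fun a : {x // cand x} → Bool => Q (ext a)).card : ℝ) := by
    rw [← (Equiv.piEquivPiSubtypeProd cand (fun _ => Bool)).symm.sum_comp, Fintype.sum_prod_type]
    have h1 : ∀ (a : {x // cand x} → Bool) (b : {x // ¬ cand x} → Bool),
        (if Q ((Equiv.piEquivPiSubtypeProd cand (fun _ => Bool)).symm (a, b)) then (1 : ℝ) else 0) =
          if Q (ext a) then 1 else 0 := by
      intro a b
      refine if_congr (hdep _ _ fun x hx => ?_) rfl rfl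
      rw [hext1 _ _ hx]
      simp [Equiv.piEquivPiSubtypeProd, hx]
    simp only [h1, Finset.sum_const, Finset.card_univ, nsmul_eq_mul]
    rw [← Finset.mul_sum, Finset.sum_boole]
    congr 1
    rw [Fintype.card_fun, Fintype.card_bool]
    push_cast
    rfl
  rw [hsum]
  have h3 := choose_half_le h0 hm'
  refine le_trans ?_ h3
  have h4 : ((univ.filter fun a : {x // cand x} → Bool => Q (ext a)).card : ℝ) ≤
      ((m.choose (m / 2) : ℕ) : ℝ) := by exact_mod_cast hsp
  rw [← hcard, pow_add, one_div_pow, one_div_pow]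
  rw [← hmdef]
  set q := Fintype.card {x // ¬ cand x}
  have h5 : (0 : ℝ) < 2 ^ q := by positivity
  have h6 : (0 : ℝ) < 2 ^ m := by positivity
  calc 1 / 2 ^ m * (1 / 2 ^ q) * (2 ^ q *
        ((univ.filter fun a : {x // cand x} → Bool => Q (ext a)).card : ℝ))
      = ((univ.filter fun a : {x // cand x} → Bool => Q (ext a)).card : ℝ) / 2 ^ m := by
        field_simp
    _ ≤ _ := div_le_div_of_nonneg_right h4 h6.le

end Pool.Agent.J6H49.CN
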