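import Pool.Agent.J6H49.CN.Sizes
import Pool.Agent.J6H49.EE.Time

/-!
# The table of the parameters and the language
-/

set_option autoImplicit false

namespace Pool.Agent.J6H49.CN

open Pool.Agent.NPC Pool.Agent.H620R2.Gauge Pool.Agent.H622R2 Pool.Agent.H591R3.PHG
open Pool.Agent.J6H7.RO LangTrAux Filter H568R2 Pool.Agent.H676
open Pool.Agent.J6H49.BI (rb poly_rb quant_rb)
open Pool.Agent.J6H49.EE (padE LinExp poly_repl)
open Pool.Agent.H622R2.Exp.A4 (poly_two_pow)

/-- the preimage of a language under a function which is computable in polynomial time with the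
oracle and does not increase the lengths -/
theorem isSig_map_le {B : Oracle} {k : ℕ} {S : Set (List Bool)} {g : List Bool → List Bool}
    (hS : IsSig B k S) (hg : IsFP B g) (hl : ∀ x, (g x).length ≤ x.length) :
    IsSig B k {x | g x ∈ S} := by
  obtain ⟨V, p, hV, hL⟩ := hS
  have hμ : UPoly (fun y : List Bool => p.eval y.length) := UPoly.eval (UPoly.length Poly.id) p
  have hV2 : IsFP B (fun y => V (gtrunc (fun y => p.eval y.length) (fun y => y) k y).2) :=
    hV.precomp (Poly.snd (poly_gtrunc hμ Poly.id k))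
  refine ⟨fun y => V (gtrunc (fun y => p.eval y.length) (fun y => y) k
    (rb k y (g (Pool.Agent.H591R3.PHG.strip k y)))).2, p, ?_, fun x => ?_⟩
  · have h1 : IsFP B (fun y => g (strip k y)) := hg.precomp (poly_strip k)
    have h2 := IsFP.pair (IsFP.of_poly (A := B) (F := fun y => y) Poly.id) h1
    have h3 : IsFP B (fun z : List Bool => rb k (unpair z).1 (unpair z).2) :=
      IsFP.of_poly (poly_rb k (Poly.fst poly_unpair) (Poly.snd poly_unpair))
    have h4 := IsFP.comp hV2 (IsFP.comp h3 h2)
    simp only [unpair_pairBits] at h4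
    exact h4
  · have h5 := quant_rb (p.eval x.length)
      (fun y => V (gtrunc (fun y => p.eval y.length) (fun y => y) k y).2) g k k 0 true x (by omega)
    show g x ∈ S ↔ _
    rw [h5, hL]
    have h6 := quant_gtrunc (fun y => p.eval y.length) (fun y => y) V
      (eval_mono p (hl x)) k 0 true (g x) (g x) rfl
    rw [zero_add] at h6
    exact h6

/-- the parameter for the length `ν` -/
def uu (ν : ℕ) : ℕ := ν ^ 2

/-- the sizes of the levels -/
noncomputable def par (k ν : ℕ) : List ℕ :=
  if h : 1 ≤ uu ν then (core k h).choose else []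

/-- the length of the parameters in the input -/
noncomputable def parLen (k ν : ℕ) : ℕ :=
  2 * (par k ν).sum + (par k ν).length + 2 * (64 * uu ν) + 1

/-- The input for `x` for `k + 1` alternating quantifiers. -/
noncomputable def inp (k : ℕ) (x : List Bool) : List Bool :=
  enc (par k x.length) (64 * uu x.length)
    (x ++ List.replicate (2 ^ (x.length + 1) - (parLen k x.length + x.length)) false)

theorem length_inp {k : ℕ} {x : List Bool} (h : parLen k x.length + x.length ≤ 2 ^ (x.length + 1)) :
    (inp k x).length = 2 ^ (x.length + 1) := by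
  unfold inp
  rw [enc_len, List.length_append, List.length_replicate]
  unfold parLen at h ⊢
  omega

/-- the string of length `2 ^ (|x| + 1)` which is given by the table -/
noncomputable def inq (k : ℕ) (x : List Bool) : List Bool :=
  (List.range (2 ^ (x.length + 1))).map fun i => (inp k x).getD i false

theorem inq_eq {k : ℕ} {x : List Bool} (h : parLen k x.length + x.length ≤ 2 ^ (x.length + 1)) :
    inq k x = inp k x := by
  apply List.ext_getElem
  · rw [length_inp h]
    simp [inq]
  · intro i h1 h2
    simp [inq, List.getD_eq_getElem?_getD, List.getElem?_eq_getElem h2]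

/-- The table: the `i`-th bit of the input for `x` for `k + 1` alternating quantifiers. -/
noncomputable def table : Oracle := fun q =>
  (inp (unpair q).1.length (unpair (unpair q).2).1).getD (unpair (unpair q).2).2.length false

/-- the question to the table -/
def code (k : ℕ) (x : List Bool) (i : ℕ) : List Bool :=
  pairBits (List.replicate k true) (pairBits x (List.replicate i true))

theorem table_code (k : ℕ) (x : List Bool) (i : ℕ) :
    table (code k x i) = (inp k x).getD i false := by
  unfold table code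
  simp only [unpair_pairBits, List.length_replicate]

/-- **The language.** -/
def hardE (k : ℕ) (A : Oracle) : Set (List Bool) := {x | inq k x ∈ lang k A}

/-- a question to the table -/
def tqi (pre : List Bool) (k : ℕ) (z : List Bool) (l : ℕ) : List Bool :=
  pre ++ code k (unpair z).1 (min l z.length)

/-- the questions to the table -/
def tq (pre : List Bool) (k : ℕ) (z : List Bool) : List (List Bool) :=
  (List.range (min (2 ^ ((unpair z).1.length + 1)) z.length)).map (tqi pre k z)

theorem poly_tqi (pre : List Bool) (k : ℕ) :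
    Poly (fun p : List Bool × ℕ => tqi pre k p.1 p.2) := by
  have h2 : UPoly (fun x : List Bool => x.length) := UPoly.length Poly.id
  have h3 : UPoly (fun p : List Bool × ℕ => min p.2 p.1.length) :=
    UPoly.of_le (Poly.min (Poly.snd Poly.id) (Poly.length (Poly.fst Poly.id)))
      (h2.comp (Poly.fst Poly.id)) (fun p => min_le_right _ _)
  have h4 : Poly (fun p : List Bool × ℕ => (unpair p.1).1) :=
    Poly.fst (poly_unpair.comp (Poly.fst Poly.id))
  exact Poly.append (NPC.Poly.const pre) (poly_pairBits (NPC.Poly.const (List.replicate k true))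
      (poly_pairBits h4 (poly_repl h3)))

theorem poly_tq (pre : List Bool) (k : ℕ) : Poly (tq pre k) := by
  have h1 : Poly (fun z : List Bool => (unpair z).1) := Poly.fst poly_unpair
  have h2 : UPoly (fun x : List Bool => x.length) := UPoly.length Poly.id
  have h4 : UPoly (fun y : List Bool => (unpair y).1.length + 1) := by
    have h := UPoly.eval (UPoly.length h1) (Polynomial.X + 1)
    simpa using h
  have h5 : UPoly (fun z : List Bool => min (2 ^ ((unpair z).1.length + 1)) z.length) :=
    UPoly.of_le (Poly.min (poly_two_pow h4) (Poly.length Poly.id)) h2 fun y => min_le_right _ _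
  exact NPC.Poly.map (F := fun x l => tqi pre k x l) h5.range (poly_tqi pre k)

theorem tq_padE {B : Oracle} {pre : List Bool} (hT : ∀ q, B (pre ++ q) = table q) (k : ℕ)
    (x : List Bool) : (tq pre k (padE 1 x)).map B = inq k x := by
  have hlen : (padE 1 x).length = 2 * x.length + 1 + 2 ^ (x.length + 1) := by
    unfold padE
    rw [Pool.Agent.H620R2.Gauge.length_pairBits, List.length_replicate, one_mul]
  have h1 : (unpair (padE 1 x)).1 = x := by
    unfold padE
    rw [unpair_pairBits]
  unfold tq inq
  rw [h1, min_eq_left (by omega), List.map_map]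
  refine List.map_congr_left fun i hi => ?_
  rw [List.mem_range] at hi
  show B (tqi pre k (padE 1 x) i) = _
  unfold tqi
  rw [h1, hT, min_eq_left (by omega)]
  exact table_code k x i

/-- the language is in the level `Σ_{k+1}` -/
theorem hardE_sig {B A : Oracle} {pre pre' : List Bool} (hA : ∀ q, B (pre ++ q) = A q)
    (hT : ∀ q, B (pre' ++ q) = table q) (k : ℕ) : LinExp (IsSig B (k + 1)) (hardE k A) := by
  have h1 : IsSig B (k + 1) (lang k A) := by
    have h2 : view false (fun q => pre ++ q) B = A := by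
      funext q
      show xor false (B (pre ++ q)) = A q
      rw [hA, Bool.false_xor]
    refine isSig_view (e := false) (f := fun q => pre ++ q) ?_
      (Poly.append (NPC.Poly.const pre) Poly.id)
    rw [h2]
    exact lang_sig A k
  have h3 : IsFP B (fun z => (tq pre' k z).map B) :=
    IsFP.tt (A := B) (H := fun p : List Bool × List Bool => p.2) (poly_tq pre' k)
      (Poly.snd Poly.id)
  refine ⟨1, {z | (tq pre' k z).map B ∈ lang k A}, isSig_map_le h1 h3 fun z => ?_, fun x => ?_⟩
  · rw [List.length_map]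
    unfold tq
    rw [List.length_map, List.length_range]
    exact min_le_right _ _
  · show inq k x ∈ lang k A ↔ (tq pre' k (padE 1 x)).map B ∈ lang k A
    rw [tq_padE hT]

/-! ### Numbers -/

theorem ev_poly (Q : Polynomial ℕ) : ∀ᶠ ν : ℕ in atTop, Q.eval (2 ^ (ν + 1)) ≤ 2 ^ uu ν := by
  filter_upwards [eventually_ge_atTop (Q.natDegree + Q.eval 1 + 2)] with ν h1
  have h3 : Q.eval (2 ^ (ν + 1)) ≤ Q.eval 1 * (2 ^ (ν + 1)) ^ Q.natDegree :=
    eval_le_pow Q Nat.one_le_two_pow
  have h4 : Q.eval 1 ≤ 2 ^ Q.eval 1 := Nat.lt_two_pow_self.le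
  calc Q.eval (2 ^ (ν + 1)) ≤ Q.eval 1 * (2 ^ (ν + 1)) ^ Q.natDegree := h3
    _ ≤ 2 ^ Q.eval 1 * (2 ^ (ν + 1)) ^ Q.natDegree := Nat.mul_le_mul_right _ h4
    _ = 2 ^ (Q.eval 1 + (ν + 1) * Q.natDegree) := by rw [← pow_mul, ← pow_add]
    _ ≤ 2 ^ uu ν := by
      apply Nat.pow_le_pow_right (by norm_num)
      unfold uu
      have h5 : Q.natDegree + Q.eval 1 + 2 ≤ ν := h1
      nlinarith

theorem par_spec {k ν : ℕ} (h : 1 ≤ uu ν) : (par k ν).length = k + 1 ∧
    (∀ a ∈ par k ν, a ≤ 512 * uu ν) ∧
      ∀ (X : Type) [Fintype X] [DecidableEq X] (g m₀ : ℕ), 4 * g ≤ Fintype.card X → 1 ≤ m₀ →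
      ∀ (m ℓ : ℕ) (F : List Bool → (Idx X (64 * uu ν :: pw (par k ν)) → Bool) → Bool),
        (∀ y : List Bool, y.length ≤ ℓ + (k + 1) * (2 * m + 1) → DTr (2 ^ (2 * uu ν)) (F y)) →
        ∀ y : X → List Bool, (∀ j, (y j).length ≤ ℓ) →
          Ma (1 / 2) (64 * uu ν :: pw (par k ν)) (fun _ => none)
              (fun j => QF m F (k + 1) true (y j)) ≤
            k * (2 ^ (ℓ + (k + 1) * (2 * m + 1) + 2) * (1 / 2) ^ (2 ^ (2 * uu ν) + 1)) +
            err (Fintype.card X) (2 ^ (2 * uu ν)) m₀ g (1 / 2 ^ (32 * uu ν)) +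
            (9 / 10) ^ Fintype.card X := by
  unfold par
  rw [dif_pos h]
  exact (core k h).choose_spec

/-- the parameters fit -/
theorem ev_par (k : ℕ) : ∀ᶠ ν : ℕ in atTop, 1 ≤ uu ν ∧ 2 * (parLen k ν + ν) ≤ 2 ^ (ν + 1) := by
  obtain ⟨t, ht⟩ := (eventually_atTop.1 (Pool.Agent.TH678.RS.ev_poly
    (1024 * (k + 1) + 128 + k + 3) 2))
  filter_upwards [eventually_ge_atTop (t + 1)] with ν h1
  have h2 : 1 ≤ uu ν := Nat.one_le_pow _ _ (by omega)
  refine ⟨h2, ?_⟩
  obtain ⟨h4, h5, _⟩ := par_spec (k := k) h2
  have h6 := sum_le_of h5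
  rw [h4] at h6
  have h7 := ht ν (by omega)
  unfold parLen
  rw [h4]
  have h9 : uu ν ≤ (ν + 1) ^ 2 := Nat.pow_le_pow_left (by omega) 2
  have hν : ν ≤ uu ν := by
    unfold uu
    nlinarith
  have h10 : (2 * (par k ν).sum + (k + 1) + 2 * (64 * uu ν) + 1) + ν ≤
      (1024 * (k + 1) + 128 + k + 3) * uu ν := by
    have h11 : (1024 * (k + 1) + 128 + k + 3) * uu ν =
      2 * (512 * uu ν * (k + 1)) + (k + 1) * uu ν + 2 * (64 * uu ν) + uu ν + uu ν := by ring
    rw [h11]
    have h12 : k + 1 ≤ (k + 1) * uu ν := Nat.le_mul_of_pos_right _ (by omega)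
    omega
  have h13 : (1024 * (k + 1) + 128 + k + 3) * uu ν ≤
      (1024 * (k + 1) + 128 + k + 3) * (ν + 1) ^ 2 := Nat.mul_le_mul_left _ h9
  rw [pow_succ]
  omega

end Pool.Agent.J6H49.CN
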