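import Pool.Agent.J6H49.CN.Hit

/-!
# The last level: disjunctions of small decision trees do not compute the values of the roots
-/

set_option autoImplicit false

namespace Pool.Agent.J6H49.CN

open Finset H568R2 Pool.Agent.H591R3.PHG

variable {c : ℕ} {X : Type} [Fintype X] [DecidableEq X]

omit [Fintype X] [DecidableEq X] in
theorem XX_congr {s : X × Fin c → Option Bool} {ρ : X → St c} {z z' : X → Bool}
    (h : ∀ x, (ρ x).1 = none → z x = z' x) : XX (G := X) s ρ z = XX (G := X) s ρ z' := by
  funext v
  unfold XX xx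
  by_cases hv : (ρ v.1).1 = none
  · rw [h v.1 hv]
  · rw [if_neg (fun h' => hv h'.1), if_neg (fun h' => hv h'.1)]

open Classical in
/-- a small certificate for the value true -/
noncomputable def cf {I : Type} {r : ℕ} {f : (I → Bool) → Bool} (h : Cert r true f)
    (z : I → Bool) : Finset I := if hz : f z = true then (h z hz).choose else ∅

theorem cf_card {I : Type} {r : ℕ} {f : (I → Bool) → Bool} (h : Cert r true f) (z : I → Bool) :
    (cf h z).card ≤ r := by
  unfold cf
  split_ifs with hz
  · exact (h z hz).choose_spec.1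
  · simp

theorem cf_spec {I : Type} {r : ℕ} {f : (I → Bool) → Bool} (h : Cert r true f) {z : I → Bool}
    (hz : f z = true) (y : I → Bool) (hy : ∀ i ∈ cf h z, y i = z i) : f y = true := by
  unfold cf at hy
  rw [dif_pos hz] at hy
  exact (h z hz).choose_spec.2 y hy

/-- no hidden true bit is in a certificate -/
def Fine {r : ℕ} (s : X × Fin c → Option Bool) {φ : X → (X × Fin c → Bool) → Bool}
    (hcert : ∀ x, Cert r true (φ x)) (ρ : X → St c) (z : X → Bool) : Prop :=
  ∀ (x : X) (v : X × Fin c), ¬ (v ∈ cf (hcert x) (XX (G := X) s ρ z) ∧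
    ((ρ v.1).1 = none ∧ z v.1 = true ∧ s (v.1, v.2) = none ∧ (ρ v.1).2 v.2 = true))

/-- the functions are equal to the values of the roots -/
def Agr (s : X × Fin c → Option Bool) (φ : X → (X × Fin c → Bool) → Bool)
    (z : X × Fin c → Bool) : Prop :=
  ∀ x, φ x z = decide (∀ i : Fin c, val s z (x, i) = false)

/-- both properties -/
def AF {r : ℕ} (s : X × Fin c → Option Bool) {φ : X → (X × Fin c → Bool) → Bool}
    (hcert : ∀ x, Cert r true (φ x)) (ρ : X → St c) (z : X → Bool) : Prop :=
  Agr s φ (XX (G := X) s ρ z) ∧ Fine s hcert ρ z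

open Classical in
theorem anti_step {r smin m₀ : ℕ} {t t' ξ : ℝ} (s : X × Fin c → Option Bool)
    {φ : X → (X × Fin c → Bool) → Bool} (hcert : ∀ x, Cert r true (φ x))
    (hdep : ∀ x z z', (∀ v, s v = none → z v = z' v) → φ x z = φ x z') (ρ : X → St c)
    (hρ : wt (G := X) t t' ξ smin s ρ ≠ 0) (h0 : 1 ≤ m₀)
    (hm : m₀ ≤ (univ.filter fun x => (ρ x).1 = none).card) :
    Ex (ber (1 / 2)) (fun z : X → Bool =>
      if AF s hcert ρ z then (1 : ℝ) else 0) ≤
      1 / Real.sqrt m₀ := by
  have hval : ∀ (z : X → Bool) (x : X), (ρ x).1 = none →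
      decide (∀ i : Fin c, val s (XX (G := X) s ρ z) (x, i) = false) = z x := by
    intro z x hx
    rw [val_stage (G := X) s ρ hρ z x]
    show (ρ x).1.getD (z x) = z x
    rw [hx]
    rfl
  refine antichain_le (fun x => (ρ x).1 = none) h0 hm (AF s hcert ρ) ?_ ?_
  · intro z z' h
    have e : XX (G := X) s ρ z = XX (G := X) s ρ z' := XX_congr h
    unfold AF Fine
    rw [e]
    refine and_congr Iff.rfl (forall_congr' fun x => forall_congr' fun v => not_congr
      (and_congr Iff.rfl (and_congr_right fun h1 => ?_)))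
    rw [h v.1 h1]
  · rintro z z' ⟨hA, hF⟩ ⟨hA', _⟩ hle x hx hzx
    by_contra hz'x
    have hz'x : z' x = false := by simpa using hz'x
    have h1 : φ x (XX (G := X) s ρ z) = true := by
      rw [hA x, hval z x hx, hzx]
    have h2 : φ x (XX (G := X) s ρ z') = false := by
      rw [hA' x, hval z' x hx, hz'x]
    set y : X × Fin c → Bool := fun v => if s v = none then XX (G := X) s ρ z' v else
      XX (G := X) s ρ z v with hy
    have h3 : φ x (XX (G := X) s ρ z') = φ x y := by
      refine hdep x _ _ fun v hv => ?_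
      simp only [hy, if_pos hv]
    have h4 : φ x y = true := by
      refine cf_spec (hcert x) h1 y fun v hv => ?_
      by_cases hsv : s v = none
      · simp only [hy, if_pos hsv]
        by_cases hc : (ρ v.1).1 = none
        · by_cases hzz : z v.1 = z' v.1
          · unfold XX
            rw [hzz]
          · have h5 : z v.1 = true ∧ z' v.1 = false := by
              cases h6 : z v.1 with
              | true =>
                refine ⟨rfl, ?_⟩
                cases h7 : z' v.1 with
                | false => rfl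
                | true => exact absurd (h6.trans h7.symm) hzz
              | false =>
                cases h7 : z' v.1 with
                | true =>
                  have := hle v.1 hc h7
                  rw [h6] at this
                  exact Bool.noConfusion this
                | false => exact absurd (h6.trans h7.symm) hzz
            have h6 := hF x v
            have h7 : (ρ v.1).2 v.2 = false := by
              by_contra h8
              exact h6 ⟨hv, hc, h5.1, hsv, by simpa using h8⟩
            have e1 : XX (G := X) s ρ z v = false := by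
              unfold XX xx
              rw [if_pos ⟨hc, h5.1, hsv⟩]
            have e2 : XX (G := X) s ρ z' v = (ρ v.1).2 v.2 := by
              unfold XX xx
              rw [if_neg]
              rintro ⟨_, h8, _⟩
              rw [h5.2] at h8
              exact Bool.noConfusion h8
            rw [e1, e2, h7]
        · unfold XX xx
          rw [if_neg (fun h' => hc h'.1), if_neg (fun h' => hc h'.1)]
      · simp only [hy, if_neg hsv]
    rw [h3, h4] at h2
    exact Bool.noConfusion h2

open Classical in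
theorem top {r m₀ g : ℕ} {t cc : ℝ} (ht : 0 < t) (ht1 : t < 1) (hc0 : 0 < cc) (hc1 : cc ≤ 1 / 2)
    (s : X × Fin c → Option Bool) {φ : X → (X × Fin c → Bool) → Bool}
    (hcert : ∀ x, Cert r true (φ x))
    (hdep : ∀ x z z', (∀ v, s v = none → z v = z' v) → φ x z = φ x z')
    (S : Finset X) (hS : g ≤ S.card)
    (hgood : ∀ x ∈ S, Unkilled (fun i => s (x, i)) ∧ cc ≤ pz t (fun i => s (x, i)) ∧
      pz t (fun i => s (x, i)) ≤ 1 - cc) (h0 : 1 ≤ m₀) :
    Ex (ber t) (fun z : X × Fin c → Bool => if Agr s φ z then (1 : ℝ) else 0) ≤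
      2 ^ m₀ * (1 - cc ^ 2) ^ g + 1 / Real.sqrt m₀ + Fintype.card X * r * t := by
  -- the threshold
  have hex : ∃ n : ℕ, (1 - t) ^ n ≤ 1 - cc := by
    obtain ⟨n, hn⟩ := exists_pow_lt_of_lt_one (show (0 : ℝ) < 1 - cc by linarith)
      (show 1 - t < 1 by linarith)
    exact ⟨n, hn.le⟩
  set smin := Nat.find hex with hsmin
  have hp : (1 - t) ^ smin ≤ 1 - cc := Nat.find_spec hex
  have hs : 1 ≤ smin := by
    by_contra h
    have h' : smin = 0 := by omega
    rw [h', pow_zero] at hp
    linarith
  have hp0 : 0 ≤ (1 - t) ^ smin := pow_nonneg (by linarith) _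
  have hn : (1 - (1 - cc)) * (1 - t) ^ smin / (1 / 2) + (1 - cc) * (1 - t) ^ smin ≤ 1 := by
    have e : (1 - (1 - cc)) * (1 - t) ^ smin / (1 / 2) + (1 - cc) * (1 - t) ^ smin =
      (1 + cc) * (1 - t) ^ smin := by ring
    rw [e]
    calc (1 + cc) * (1 - t) ^ smin ≤ (1 + cc) * (1 - cc) :=
          mul_le_mul_of_nonneg_left hp (by linarith)
      _ = 1 - cc ^ 2 := by ring
      _ ≤ 1 := by
          have := sq_nonneg cc
          linarith
  have hnn : ∀ ρ : X → St c, 0 ≤ wt (G := X) t (1 / 2) (1 - cc) smin s ρ := fun ρ =>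
    wt_nonneg ht ht1 (by norm_num) (by linarith) (by linarith) hs hn s ρ
  have hw1 := wt_sum (t' := 1 / 2) (ξ := 1 - cc) (smin := smin) ht ht1 (by norm_num) hs s
  rw [stage (t' := 1 / 2) (ξ := 1 - cc) (smin := smin) ht ht1 (by norm_num) hs s]
  -- the three parts
  set T₁ : (X → St c) → ℝ := fun ρ =>
    if (univ.filter fun x => (ρ x).1 = none).card < m₀ then (1 : ℝ) else 0 with hT₁
  set Ψ : X → X × Fin c → (X × Fin c → Bool) → ℝ := fun x v z =>
    if v ∈ cf (hcert x) z then (1 : ℝ) else 0 with hΨ
  set hit : X → X × Fin c → (X → St c) → (X → Bool) → ℝ := fun x v ρ z =>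
    if (ρ v.1).1 = none ∧ z v.1 = true ∧ s (v.1, v.2) = none ∧ (ρ v.1).2 v.2 = true then
        Ψ x v (XX (G := X) s ρ z) else 0 with hhit
  have hhit0 : ∀ x v ρ z, 0 ≤ hit x v ρ z := by
    intro x v ρ z
    simp only [hhit, hΨ]
    split_ifs <;> norm_num
  have hterm : ∀ ρ : X → St c, wt (G := X) t (1 / 2) (1 - cc) smin s ρ *
      Ex (ber (1 / 2)) (fun z : X → Bool => if Agr s φ (XX (G := X) s ρ z) then (1 : ℝ) else 0) ≤
      wt (G := X) t (1 / 2) (1 - cc) smin s ρ * T₁ ρ +
      wt (G := X) t (1 / 2) (1 - cc) smin s ρ * (1 / Real.sqrt m₀) +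
      ∑ x : X, ∑ v : X × Fin c, wt (G := X) t (1 / 2) (1 - cc) smin s ρ *
        Ex (ber (1 / 2)) (fun z : X → Bool => hit x v ρ z) := by
    intro ρ
    have e1 : ∑ x : X, ∑ v : X × Fin c, wt (G := X) t (1 / 2) (1 - cc) smin s ρ *
        Ex (ber (1 / 2)) (fun z : X → Bool => hit x v ρ z) =
        wt (G := X) t (1 / 2) (1 - cc) smin s ρ *
          Ex (ber (1 / 2)) (fun z : X → Bool => ∑ x : X, ∑ v : X × Fin c, hit x v ρ z) := by
      rw [Ex_sum, Finset.mul_sum]
      refine Finset.sum_congr rfl fun x _ => ?_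
      rw [Ex_sum, Finset.mul_sum]
    rw [e1, ← mul_add, ← mul_add]
    by_cases hρ : wt (G := X) t (1 / 2) (1 - cc) smin s ρ = 0
    · rw [hρ, zero_mul, zero_mul]
    refine mul_le_mul_of_nonneg_left ?_ (hnn ρ)
    have h1 : Ex (ber (1 / 2)) (fun z : X → Bool =>
        if Agr s φ (XX (G := X) s ρ z) then (1 : ℝ) else 0) ≤
        Ex (ber (1 / 2)) (fun z : X → Bool =>
          (if AF s hcert ρ z then (1 : ℝ) else 0) +
            ∑ x : X, ∑ v : X × Fin c, hit x v ρ z) := by
      refine Ex_mono (ber_nonneg_m (by norm_num) (by norm_num)) fun z => ?_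
      have hsum0 : 0 ≤ ∑ x : X, ∑ v : X × Fin c, hit x v ρ z :=
        Finset.sum_nonneg fun x _ => Finset.sum_nonneg fun v _ => hhit0 x v ρ z
      by_cases hA : Agr s φ (XX (G := X) s ρ z)
      · by_cases hF : Fine s hcert ρ z
        · rw [if_pos hA, if_pos ⟨hA, hF⟩]
          linarith
        · rw [if_pos hA, if_neg (fun h => hF h.2), zero_add]
          unfold Fine at hF
          push Not at hF
          obtain ⟨x, v, hv, h2⟩ := hF
          have h3 : hit x v ρ z = 1 := by
            simp only [hhit, hΨ]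
            rw [if_pos h2, if_pos hv]
          calc (1 : ℝ) = hit x v ρ z := h3.symm
            _ ≤ ∑ v : X × Fin c, hit x v ρ z :=
                Finset.single_le_sum (f := fun v => hit x v ρ z) (fun v _ => hhit0 x v ρ z)
                  (Finset.mem_univ v)
            _ ≤ _ := Finset.single_le_sum (f := fun x => ∑ v : X × Fin c, hit x v ρ z)
                  (fun x _ => Finset.sum_nonneg fun v _ => hhit0 x v ρ z) (Finset.mem_univ x)
      · rw [if_neg hA]
        split_ifs <;> linarith
    refine h1.trans ?_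
    rw [Ex_add]
    refine add_le_add ?_ le_rfl
    have hsq : (0 : ℝ) ≤ 1 / Real.sqrt m₀ := by positivity
    by_cases hm : (univ.filter fun x => (ρ x).1 = none).card < m₀
    · have h2 : T₁ ρ = 1 := if_pos hm
      rw [h2]
      refine le_trans (Ex_mono (G := fun _ => (1 : ℝ)) (ber_nonneg_m (by norm_num) (by norm_num))
        fun z => ?_) ((le_of_eq (Ex_const (ber_sum_m _) 1)).trans (by linarith))
      split_ifs <;> norm_num
    · have h2 : T₁ ρ = 0 := if_neg hm
      rw [h2, zero_add]
      exact anti_step s hcert hdep ρ hρ h0 (by omega)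
  refine (Finset.sum_le_sum fun ρ _ => hterm ρ).trans ?_
  rw [Finset.sum_add_distrib, Finset.sum_add_distrib, ← Finset.sum_mul, hw1, one_mul]
  have h1 : ∑ ρ : X → St c, wt (G := X) t (1 / 2) (1 - cc) smin s ρ * T₁ ρ ≤
      2 ^ m₀ * (1 - cc ^ 2) ^ g := by
    refine few_cand (q := cc ^ 2) ht ht1 (by norm_num) (by linarith) (by linarith) hs hn
      (by positivity) (by nlinarith) s S hS fun x hx => ?_
    obtain ⟨hU, hl, hu⟩ := hgood x hx
    refine ⟨⟨hU, ?_⟩, ?_⟩
    · exact Nat.find_min' hex hu
    · have e : (1 - (1 - cc)) * pz t (fun i => s (x, i)) / (1 / 2) =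
        2 * (cc * pz t (fun i => s (x, i))) := by ring
      rw [e]
      nlinarith
  have h2 : ∑ ρ : X → St c, ∑ x : X, ∑ v : X × Fin c,
      wt (G := X) t (1 / 2) (1 - cc) smin s ρ *
        Ex (ber (1 / 2)) (fun z : X → Bool => hit x v ρ z) ≤ Fintype.card X * r * t := by
    rw [Finset.sum_comm]
    have h3 : ∀ x : X, ∑ ρ : X → St c, ∑ v : X × Fin c,
        wt (G := X) t (1 / 2) (1 - cc) smin s ρ *
          Ex (ber (1 / 2)) (fun z : X → Bool => hit x v ρ z) ≤ r * t := by
      intro x
      rw [Finset.sum_comm]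
      have h4 : ∀ v : X × Fin c, ∑ ρ : X → St c,
          wt (G := X) t (1 / 2) (1 - cc) smin s ρ *
            Ex (ber (1 / 2)) (fun z : X → Bool => hit x v ρ z) ≤ t * Ex (ber t) (Ψ x v) := by
        intro v
        refine hit_le ht ht1 (by norm_num) hs (by linarith) (by linarith) s v.1 v.2 (Ψ x v) ?_
        intro z
        simp only [hΨ]
        split_ifs <;> norm_num
      refine (Finset.sum_le_sum fun v _ => h4 v).trans ?_
      rw [← Finset.mul_sum, ← Ex_sum]
      have h5 : Ex (ber t) (fun z : X × Fin c → Bool => ∑ v : X × Fin c, Ψ x v z) ≤ r := by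
        refine le_trans (Ex_mono (G := fun _ => (r : ℝ)) (ber_nonneg_m ht.le ht1.le)
          fun z => ?_) (le_of_eq (Ex_const (ber_sum_m _) _))
        simp only [hΨ]
        rw [Finset.sum_boole]
        have h6 : (univ.filter fun v => v ∈ cf (hcert x) z) = cf (hcert x) z := by
          ext v
          simp
        rw [h6]
        exact_mod_cast cf_card (hcert x) z
      calc t * Ex (ber t) (fun z : X × Fin c → Bool => ∑ v : X × Fin c, Ψ x v z) ≤ t * r :=
            mul_le_mul_of_nonneg_left h5 ht.le
        _ = r * t := mul_comm _ _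
    refine (Finset.sum_le_sum fun x _ => h3 x).trans (le_of_eq ?_)
    rw [Finset.sum_const, Finset.card_univ, nsmul_eq_mul]
    ring
  linarith

end Pool.Agent.J6H49.CN
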